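import Pool.Agent.Helper75.BJ.REP

/-!
# The assembly
-/

set_option autoImplicit false
set_option linter.unusedSectionVars false

namespace Pool.Agent.Helper75.BJ

open Cardinal MeasureTheory Set Filter Topology TopologicalSpace
open Pool.Agent.TH773.PSet Pool.Agent.R593.Rnd Pool.Agent.R592.Ent
open scoped ENNReal

universe u v w

section Up

variable {X : Type} [TopologicalSpace X] [MeasurableSpace X] {Y : Type} [MeasurableSpace Y]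
  {μ : Measure Y}

/-- a function of the first step as a function of both steps -/
def up (g : X → ℕ → ℕ) : X × Y → ℕ → ℕ := fun ω => g ω.1

theorem mf_up {g : X → ℕ → ℕ} (hg : Mf g) : Mf (up g : X × Y → ℕ → ℕ) := fun n a =>
  measurable_fst (hg n a)

theorem ev_fst {φ : X → Prop} (h : ∀ᶠ x in residual X, φ x) : ∀ᶠ ω in FF X μ, φ ω.1 := by
  rw [eventually_FF]
  filter_upwards [h] with x hx
  exact Eventually.of_forall fun _ => hx

end Up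

section Main

variable {X : Type} [TopologicalSpace X] [MeasurableSpace X] [BorelSpace X] [BaireSpace X]
  {Y : Type} [MeasurableSpace Y] {μ : Measure Y} [IsProbabilityMeasure μ]
  {κ1 κ2 : Cardinal.{0}} (T1 : Tower X κ1) (T2 : Tower X κ2)

/-- the indices of the base of the ideal -/
abbrev ZZ : Type :=
  {t : List (T1.K × (X → ℕ → ℕ)) × List (T2.K × (X → ℕ → ℕ)) × ℕ //
    (∀ s ∈ t.1, s.2 ∈ T1.M s.1) ∧ (∀ s ∈ t.2.1, s.2 ∈ T2.M s.1)}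

/-- the members of the base of the ideal -/
def GG (Y : Type) (z : ZZ T1 T2) (n : ℕ) : Set (X × Y) :=
  {ω | n < z.1.2.2 ∨ (n % 2 = 0 ∧ ∃ s ∈ z.1.1, T1.c s.1 ω.1 n ≤ s.2 ω.1 n) ∨
    (n % 2 = 1 ∧ ∃ s ∈ z.1.2.1, T2.c s.1 ω.1 n ≤ s.2 ω.1 n)}

theorem meas_list {κ : Cardinal.{0}} (T : Tower X κ) (L : List (T.K × (X → ℕ → ℕ)))
    (hL : ∀ s ∈ L, s.2 ∈ T.M s.1) (n : ℕ) :
    MeasurableSet {ω : X × Y | ∃ s ∈ L, T.c s.1 ω.1 n ≤ s.2 ω.1 n} := by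
  have h1 : {ω : X × Y | ∃ s ∈ L, T.c s.1 ω.1 n ≤ s.2 ω.1 n} =
      ⋃ s ∈ {s | s ∈ L}, {ω : X × Y | T.c s.1 ω.1 n ≤ s.2 ω.1 n} := by
    ext ω
    simp
  rw [h1]
  refine MeasurableSet.biUnion (List.finite_toSet L).countable fun s hs => ?_
  exact measurable_le (h := up (T.c s.1)) (k := up s.2) (mf_up (T.meas s.1))
    (mf_up (T.mM _ _ (hL s hs))) n

theorem meas_GG (z : ZZ T1 T2) (n : ℕ) : MeasurableSet (GG T1 T2 Y z n) := by
  have h1 : GG T1 T2 Y z n = {ω | n < z.1.2.2} ∪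
      (({ω | n % 2 = 0} ∩ {ω : X × Y | ∃ s ∈ z.1.1, T1.c s.1 ω.1 n ≤ s.2 ω.1 n}) ∪
        ({ω | n % 2 = 1} ∩ {ω : X × Y | ∃ s ∈ z.1.2.1, T2.c s.1 ω.1 n ≤ s.2 ω.1 n})) := rfl
  rw [h1]
  exact (MeasurableSet.const _).union (((MeasurableSet.const _).inter
    (meas_list T1 _ z.2.1 n)).union ((MeasurableSet.const _).inter (meas_list T2 _ z.2.2 n)))

variable (μ) in
/-- the base of the ideal -/
def EE (z : ZZ T1 T2) : RName (Cf (FF X μ)) := fun n => PE (FF X μ) (GG T1 T2 Y z n)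

theorem leJ_iff {x y : ℕ → ℕ → Set (Cf (FF X μ))} {h k : X × Y → ℕ → ℕ} (hx : Rp x h) (hy : Rp y k)
    {p : Cf (FF X μ)} (hpx : p ∈ IsFun x) (hpy : p ∈ IsFun y) :
    p ∈ LeJ (EE μ T1 T2) x y ↔ ∀ q ≤ p, ∃ r ≤ q, ∃ z : ZZ T1 T2,
      ∀ᶠ ω in FF X μ, ω ∈ r.1 → ∀ n, k ω n < h ω n → ω ∈ GG T1 T2 Y z n := by
  unfold LeJ
  rw [mem_fex]
  refine forall_congr' fun q => forall_congr' fun hq => exists_congr fun r => ?_
  refine and_congr_right fun hr => exists_congr fun z => ?_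
  exact leJ_aux hx hy ((reg_isFun x).1 p hpx r (hr.trans hq)) ((reg_isFun y).1 p hpy r (hr.trans hq))
    fun n => meas_GG T1 T2 z n

theorem leJ_intro {x y : ℕ → ℕ → Set (Cf (FF X μ))} {h k : X × Y → ℕ → ℕ} (hx : Rp x h)
    (hy : Rp y k) {p : Cf (FF X μ)} (hpx : p ∈ IsFun x) (hpy : p ∈ IsFun y) (z : ℕ → ZZ T1 T2)
    (hz : ∀ᶠ ω in FF X μ, ω ∈ p.1 → ∃ N, ∀ n, k ω n < h ω n → ω ∈ GG T1 T2 Y (z N) n) :
    p ∈ LeJ (EE μ T1 T2) x y := by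
  rw [leJ_iff T1 T2 hx hy hpx hpy]
  intro q hq
  have h1 : ∀ᶠ ω in FF X μ, ω ∈ q.1 → ∃ N, ω ∈ {ω | ∀ n, k ω n < h ω n → ω ∈ GG T1 T2 Y (z N) n} := by
    have h2 : ∀ᶠ ω in FF X μ, ω ∈ q.1 → ω ∈ p.1 := hq
    filter_upwards [h2, hz] with ω h3 h4 h5 using h4 (h3 h5)
  obtain ⟨r, hr, N, hN⟩ := pigeon (fun N => by
    have h2 : {ω | ∀ n, k ω n < h ω n → ω ∈ GG T1 T2 Y (z N) n} =
        ⋂ n : ℕ, ({ω | k ω n < h ω n}ᶜ ∪ GG T1 T2 Y (z N) n) := by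
      ext ω
      simp only [mem_ofPred_eq, mem_iInter, mem_union, mem_compl_iff]
      refine forall_congr' fun n => ?_
      tauto
    rw [h2]
    exact MeasurableSet.iInter fun n => (measurable_lt hx.1 hy.1 n).compl.union
      (meas_GG T1 T2 (z N) n)) h1
  exact ⟨r, hr, z N, hN⟩

/-- the bound given by the two towers -/
def bd (α : T1.K) (β : T2.K) : X × Y → ℕ → ℕ := fun ω n =>
  if n % 2 = 0 then T1.c α ω.1 n else T2.c β ω.1 n

theorem mf_bd (α : T1.K) (β : T2.K) : Mf (bd T1 T2 α β : X × Y → ℕ → ℕ) := by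
  intro n a
  unfold bd
  split_ifs with h
  · exact mf_up (T1.meas α) n a
  · exact mf_up (T2.meas β) n a

theorem le_bd {x : ℕ → ℕ → Set (Cf (FF X μ))} {h : X × Y → ℕ → ℕ} (hx : Rp x h)
    {g : X → ℕ → ℕ} (hg : ∀ᶠ ω in FF X μ, ∀ᶠ n in atTop, h ω n ≤ g ω.1 n) {α : T1.K} {β : T2.K}
    (h1 : g ∈ T1.M α) (h2 : g ∈ T2.M β) {p : Cf (FF X μ)} (hpx : p ∈ IsFun x) :
    p ∈ LeJ (EE μ T1 T2) x (nm (FF X μ) (bd T1 T2 α β)) := by
  refine leJ_intro T1 T2 hx (rp_nm (mf_bd T1 T2 α β)) hpx (isFun_nm (mf_bd T1 T2 α β) p)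
    (fun N => ⟨([(α, g)], [(β, g)], N), by simpa using h1, by simpa using h2⟩) ?_
  filter_upwards [hg] with ω hω _
  obtain ⟨N, hN⟩ := eventually_atTop.1 hω
  refine ⟨N, fun n hn => ?_⟩
  by_cases hnN : n < N
  · exact Or.inl hnN
  · have h3 := hN n (not_lt.1 hnN)
    unfold bd at hn
    right
    rcases Nat.mod_two_eq_zero_or_one n with h4 | h4
    · left
      rw [if_pos h4] at hn
      exact ⟨h4, (α, g), by simp, (hn.trans_le h3).le⟩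
    · right
      rw [if_neg (by omega)] at hn
      exact ⟨h4, (β, g), by simp, (hn.trans_le h3).le⟩

/-- the functions which are not bounded -/
def lo (i : ℕ) (c : X → ℕ → ℕ) : X × Y → ℕ → ℕ := fun ω n => if n % 2 = i then c ω.1 n else 0

theorem mf_lo (i : ℕ) {c : X → ℕ → ℕ} (hc : Mf c) : Mf (lo i c : X × Y → ℕ → ℕ) := by
  intro n a
  unfold lo
  split_ifs with h
  · exact mf_up hc n a
  · exact MeasurableSet.const _

theorem contra1 {h : X × Y → ℕ → ℕ} {g : X → ℕ → ℕ}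
    (hg : ∀ᶠ ω in FF X μ, ∀ᶠ n in atTop, h ω n ≤ g ω.1 n) {α : T1.K} (h1 : g ∈ T1.M α)
    {p : Cf (FF X μ)} {z : ZZ T1 T2}
    (hp : ∀ᶠ ω in FF X μ, ω ∈ p.1 → ∀ n, h ω n < lo 0 (T1.c α) ω n → ω ∈ GG T1 T2 Y z n) : False := by
  refine p.2.2 ?_
  have h2 := ev_fst (μ := μ) (T1.generic ((α, g) :: z.1.1) (by
    intro t ht
    rcases List.mem_cons.1 ht with rfl | ht
    · exact h1
    · exact z.2.1 t ht))
  filter_upwards [hg, hp, h2] with ω h3 h4 h5 h6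
  obtain ⟨N, hN⟩ := eventually_atTop.1 h3
  obtain ⟨n, hn, hn', h7⟩ := h5 (max N z.1.2.2) 0
  have h8 := h7 (α, g) (by simp)
  have h9 := hN n ((le_max_left _ _).trans hn)
  have h10 : n % 2 = 0 := by simpa using hn'
  have h11 : ω ∈ GG T1 T2 Y z n := by
    apply h4 h6 n
    unfold lo
    rw [if_pos h10]
    exact h9.trans_lt h8
  rcases h11 with h12 | ⟨-, s, hs, h12⟩ | ⟨h12, -⟩
  · exact absurd ((le_max_right _ _).trans hn) (not_le.2 h12)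
  · exact absurd (h7 s (List.mem_cons_of_mem _ hs)) (not_lt.2 h12)
  · omega

theorem contra2 {h : X × Y → ℕ → ℕ} {g : X → ℕ → ℕ}
    (hg : ∀ᶠ ω in FF X μ, ∀ᶠ n in atTop, h ω n ≤ g ω.1 n) {α : T2.K} (h1 : g ∈ T2.M α)
    {p : Cf (FF X μ)} {z : ZZ T1 T2}
    (hp : ∀ᶠ ω in FF X μ, ω ∈ p.1 → ∀ n, h ω n < lo 1 (T2.c α) ω n → ω ∈ GG T1 T2 Y z n) : False := by
  refine p.2.2 ?_
  have h2 := ev_fst (μ := μ) (T2.generic ((α, g) :: z.1.2.1) (by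
    intro t ht
    rcases List.mem_cons.1 ht with rfl | ht
    · exact h1
    · exact z.2.2 t ht))
  filter_upwards [hg, hp, h2] with ω h3 h4 h5 h6
  obtain ⟨N, hN⟩ := eventually_atTop.1 h3
  obtain ⟨n, hn, hn', h7⟩ := h5 (max N z.1.2.2) 1
  have h8 := h7 (α, g) (by simp)
  have h9 := hN n ((le_max_left _ _).trans hn)
  have h10 : n % 2 = 1 := by simpa using hn'
  have h11 : ω ∈ GG T1 T2 Y z n := by
    apply h4 h6 n
    unfold lo
    rw [if_pos h10]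
    exact h9.trans_lt h8
  rcases h11 with h12 | ⟨h12, -⟩ | ⟨-, s, hs, h12⟩
  · exact absurd ((le_max_right _ _).trans hn) (not_le.2 h12)
  · omega
  · exact absurd (h7 s (List.mem_cons_of_mem _ hs)) (not_lt.2 h12)

/-- the functions `EE` are a base of an ideal -/
theorem isBase_EE (p : Cf (FF X μ)) : p ∈ IsBase (EE μ T1 T2) := by
  have hm : ∀ (z : ZZ T1 T2) n, meets (EE μ T1 T2 z n) = PE (FF X μ) (GG T1 T2 Y z n) :=
    fun z n => meets_PE (meas_GG T1 T2 z n)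
  refine ⟨fun N => ?_, fun z z' => ?_, fun z => ?_⟩
  · refine mem_fex_of (⟨([], [], N), by simp, by simp⟩ : ZZ T1 T2) fun q _ n hn => ?_
    rw [hm]
    rw [mem_PE]
    refine Eventually.of_forall fun ω _ => ?_
    left
    exact hn
  · refine mem_fex_of (⟨(z.1.1 ++ z'.1.1, z.1.2.1 ++ z'.1.2.1, max z.1.2.2 z'.1.2.2), ?_, ?_⟩ :
      ZZ T1 T2) fun q _ => ⟨fun n => ?_, fun n => ?_⟩
    · intro s hs
      rcases List.mem_append.1 hs with h | h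
      · exact z.2.1 s h
      · exact z'.2.1 s h
    · intro s hs
      rcases List.mem_append.1 hs with h | h
      · exact z.2.2 s h
      · exact z'.2.2 s h
    · show q ∈ fimp (meets (EE μ T1 T2 z n)) (meets (EE μ T1 T2 _ n))
      rw [hm, hm]
      refine mem_fimp.2 fun r _ hr => ⟨r, le_rfl, PE_mono ?_ hr⟩
      refine Eventually.of_forall fun ω _ h => ?_
      rcases h with h | ⟨h, s, hs, h'⟩ | ⟨h, s, hs, h'⟩
      · exact Or.inl (h.trans_le (le_max_left _ _))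
      · exact Or.inr (Or.inl ⟨h, s, List.mem_append_left _ hs, h'⟩)
      · exact Or.inr (Or.inr ⟨h, s, List.mem_append_left _ hs, h'⟩)
    · show q ∈ fimp (meets (EE μ T1 T2 z' n)) (meets (EE μ T1 T2 _ n))
      rw [hm, hm]
      refine mem_fimp.2 fun r _ hr => ⟨r, le_rfl, PE_mono ?_ hr⟩
      refine Eventually.of_forall fun ω _ h => ?_
      rcases h with h | ⟨h, s, hs, h'⟩ | ⟨h, s, hs, h'⟩
      · exact Or.inl (h.trans_le (le_max_right _ _))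
      · exact Or.inr (Or.inl ⟨h, s, List.mem_append_right _ hs, h'⟩)
      · exact Or.inr (Or.inr ⟨h, s, List.mem_append_right _ hs, h'⟩)
  · have h1 : (fun n => fnot (meets (EE μ T1 T2 z n))) =
        fun n => PE (FF X μ) (GG T1 T2 Y z n)ᶜ := by
      funext n
      rw [hm, fnot_PE (meas_GG T1 T2 z n)]
    show p ∈ fex fun n => fnot (meets (EE μ T1 T2 z n))
    rw [h1, fex_PE fun n => (meas_GG T1 T2 z n).compl]
    have h2 := ev_fst (μ := μ) (T1.generic z.1.1 z.2.1)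
    filter_upwards [h2] with ω h3 _
    obtain ⟨n, hn, hn', h4⟩ := h3 z.1.2.2 0
    refine mem_iUnion.2 ⟨n, ?_⟩
    rintro (h5 | ⟨-, s, hs, h5⟩ | ⟨h5, -⟩)
    · exact absurd hn (not_le.2 h5)
    · exact absurd (h4 s hs) (not_lt.2 h5)
    · omega

/-! ### The inequalities -/

variable (hc : Ccc (FF X μ)) (hB : S_BND)

include hc hB

theorem exists_rb (x : ℕ → ℕ → Set (Cf (FF X μ))) : ∃ (h : X × Y → ℕ → ℕ) (g : X → ℕ → ℕ),
    Rp x h ∧ Mf g ∧ ∀ᶠ ω in FF X μ, ∀ᶠ n in atTop, h ω n ≤ g ω.1 n := by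
  obtain ⟨h, hh⟩ := exists_Rp hc x
  obtain ⟨g, hg, hg'⟩ := hB X Y μ h hh.1
  refine ⟨h, g, hh, hg, ?_⟩
  rw [eventually_FF]
  exact Eventually.of_forall hg'

theorem bddJ {W : Type} (h1 : #W < κ1) (h2 : #W < κ2) (p : Cf (FF X μ)) :
    p ∈ BddJ (EE μ T1 T2) W := by
  intro D
  refine mem_fimp.2 fun q _ hq => ⟨q, le_rfl, ?_⟩
  choose h g hh hg hgb using fun y => exists_rb hc hB (D y)
  obtain ⟨α, hα⟩ := T1.absorb W g h1 hg
  obtain ⟨β, hβ⟩ := T2.absorb W g h2 hg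
  refine mem_fex_of (nm (FF X μ) (bd T1 T2 α β)) fun r hr =>
    ⟨isFun_nm (mf_bd T1 T2 α β) r, fun y => ?_⟩
  exact le_bd T1 T2 (hh y) (hgb y) (hα y) (hβ y) ((reg_isFun _).1 q (hq y) r hr)

theorem domJ (h1 : 1 < κ1) (h2 : 1 < κ2) (p : Cf (FF X μ)) :
    p ∈ DomJ (EE μ T1 T2) (T1.K × T2.K) := by
  refine mem_fex_of (fun t : T1.K × T2.K => nm (FF X μ) (bd T1 T2 t.1 t.2)) fun q _ =>
    ⟨fun t => isFun_nm (mf_bd T1 T2 t.1 t.2) q, fun x => ?_⟩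
  refine mem_fimp.2 fun r _ hr => ⟨r, le_rfl, ?_⟩
  obtain ⟨h, g, hh, hg, hgb⟩ := exists_rb hc hB x
  obtain ⟨α, hα⟩ := T1.absorb Unit (fun _ => g) (by rwa [mk_unit]) fun _ => hg
  obtain ⟨β, hβ⟩ := T2.absorb Unit (fun _ => g) (by rwa [mk_unit]) fun _ => hg
  refine mem_fex_of (α, β) fun s hs => ?_
  exact le_bd T1 T2 hh hgb (hα ()) (hβ ()) ((reg_isFun _).1 r hr s hs)

theorem not_bddJ (h1 : 1 < κ1) (p : Cf (FF X μ)) : p ∈ fnot (BddJ (EE μ T1 T2) T1.K) := by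
  intro q _ hq
  obtain ⟨r, _, hr⟩ := mem_fimp.1 (hq fun α => nm (FF X μ) (lo 0 (T1.c α))) q le_rfl
    fun α => isFun_nm (mf_lo 0 (T1.meas α)) q
  obtain ⟨s, _, x, hx1, hx2⟩ := mem_fex.1 hr r le_rfl
  obtain ⟨h, g, hh, hg, hgb⟩ := exists_rb hc hB x
  obtain ⟨α, hα⟩ := T1.absorb Unit (fun _ => g) (by rwa [mk_unit]) fun _ => hg
  obtain ⟨t, _, z, hz⟩ := (leJ_iff T1 T2 (rp_nm (mf_lo 0 (T1.meas α))) hh
    (isFun_nm (mf_lo 0 (T1.meas α)) s) hx1).1 (hx2 α) s le_rfl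
  exact contra1 T1 T2 hgb (hα ()) hz

theorem not_domJ {W : Type} (h2 : #W < κ2) (p : Cf (FF X μ)) :
    p ∈ fnot (DomJ (EE μ T1 T2) W) := by
  intro q _ hq
  obtain ⟨r, _, D, hD1, hD2⟩ := mem_fex.1 hq q le_rfl
  choose h g hh hg hgb using fun y => exists_rb hc hB (D y)
  obtain ⟨β, hβ⟩ := T2.absorb W g h2 hg
  obtain ⟨s, hs, hs'⟩ := mem_fimp.1 (hD2 (nm (FF X μ) (lo 1 (T2.c β)))) r le_rfl
    (isFun_nm (mf_lo 1 (T2.meas β)) r)
  obtain ⟨t, ht, y, hy⟩ := mem_fex.1 hs' s le_rfl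
  obtain ⟨t', _, z, hz⟩ := (leJ_iff T1 T2 (rp_nm (mf_lo 1 (T2.meas β))) (hh y)
    (isFun_nm (mf_lo 1 (T2.meas β)) t) ((reg_isFun _).1 r (hD1 y) t (ht.trans hs))).1 hy t le_rfl
  exact contra2 T1 T2 (hgb y) (hβ y) hz

theorem not_dom {κ : Cardinal.{0}} (T : Tower X κ) {W : Type} (h : #W < κ) (p : Cf (FF X μ)) :
    p ∈ fnot (DominatingLe (Cf (FF X μ)) W) := by
  intro q _ hq
  obtain ⟨r, _, D, hD1, hD2⟩ := mem_fex.1 hq q le_rfl
  choose h' g hh hg hgb using fun y => exists_rb hc hB (D y)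
  obtain ⟨β, hβ⟩ := T.absorb W g h hg
  have hm : Mf (up (T.c β) : X × Y → ℕ → ℕ) := mf_up (T.meas β)
  obtain ⟨s, hs, hs'⟩ := mem_fimp.1 (hD2 (nm (FF X μ) (up (T.c β)))) r le_rfl (isFun_nm hm r)
  obtain ⟨t, ht, y, hy⟩ := mem_fex.1 hs' s le_rfl
  have h1 := (evLe_iff (rp_nm hm) (hh y) (isFun_nm hm t)
    ((reg_isFun _).1 r (hD1 y) t (ht.trans hs))).1 hy
  refine t.2.2 ?_
  have h2 := ev_fst (μ := μ) (T.generic [(β, g y)] (by
    intro t ht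
    rw [List.mem_singleton] at ht
    rw [ht]
    exact hβ y))
  filter_upwards [h1, h2, hgb y] with ω h3 h4 h5 h6
  obtain ⟨N, hN⟩ := eventually_atTop.1 ((h3 h6).and h5)
  obtain ⟨n, hn, -, h7⟩ := h4 N 0
  have h8 := h7 (β, g y) (by simp)
  have h9 := hN n hn
  exact absurd (h9.1.trans h9.2) (not_le.2 h8)

theorem not_bdd {κ : Cardinal.{0}} (T : Tower X κ) (h : 1 < κ) (p : Cf (FF X μ)) :
    p ∈ fnot (BddFin (Cf (FF X μ)) T.K) := by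
  intro q _ hq
  have hm : ∀ α, Mf (up (T.c α) : X × Y → ℕ → ℕ) := fun α => mf_up (T.meas α)
  obtain ⟨r, _, hr⟩ := mem_fimp.1 (hq fun α => nm (FF X μ) (up (T.c α))) q le_rfl
    fun α => isFun_nm (hm α) q
  obtain ⟨s, _, x, hx1, hx2⟩ := mem_fex.1 hr r le_rfl
  obtain ⟨h', g, hh, hg, hgb⟩ := exists_rb hc hB x
  obtain ⟨α, hα⟩ := T.absorb Unit (fun _ => g) (by rwa [mk_unit]) fun _ => hg
  have h1 := (evLe_iff (rp_nm (hm α)) hh (isFun_nm (hm α) s) hx1).1 (hx2 α)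
  refine s.2.2 ?_
  have h2 := ev_fst (μ := μ) (T.generic [(α, g)] (by
    intro t ht
    rw [List.mem_singleton] at ht
    rw [ht]
    exact hα ()))
  filter_upwards [h1, h2, hgb] with ω h3 h4 h5 h6
  obtain ⟨N, hN⟩ := eventually_atTop.1 ((h3 h6).and h5)
  obtain ⟨n, hn, -, h7⟩ := h4 N 0
  have h8 := h7 (α, g) (by simp)
  have h9 := hN n hn
  exact absurd (h9.1.trans h9.2) (not_le.2 h8)

theorem bdd {W : Type} (hW : ∀ g : W → X → ℕ → ℕ, (∀ y, Mf (g y)) → ∃ d : X → ℕ → ℕ, Mf d ∧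
      ∀ y, ∀ᶠ x in residual X, ∀ᶠ n in atTop, g y x n ≤ d x n) (p : Cf (FF X μ)) :
    p ∈ BddFin (Cf (FF X μ)) W := by
  intro D
  refine mem_fimp.2 fun q _ hq => ⟨q, le_rfl, ?_⟩
  choose h g hh hg hgb using fun y => exists_rb hc hB (D y)
  obtain ⟨d, hd, hd'⟩ := hW g hg
  have hm : Mf (up d : X × Y → ℕ → ℕ) := mf_up hd
  refine mem_fex_of (nm (FF X μ) (up d)) fun r hr => ⟨isFun_nm hm r, fun y => ?_⟩
  rw [evLe_iff (hh y) (rp_nm hm) ((reg_isFun _).1 q (hq y) r hr) (isFun_nm hm r)]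
  filter_upwards [hgb y, ev_fst (μ := μ) (hd' y)] with ω h1 h2 _
  filter_upwards [h1, h2] with n h3 h4
  exact h3.trans h4

theorem dom {W : Type} {d : W → X → ℕ → ℕ} (hd : ∀ b, Mf (d b))
    (hd' : ∀ g : X → ℕ → ℕ, Mf g → ∃ b, ∀ᶠ x in residual X, ∀ᶠ n in atTop, g x n ≤ d b x n)
    (p : Cf (FF X μ)) : p ∈ DominatingLe (Cf (FF X μ)) W := by
  have hm : ∀ b, Mf (up (d b) : X × Y → ℕ → ℕ) := fun b => mf_up (hd b)
  refine mem_fex_of (fun b => nm (FF X μ) (up (d b))) fun q _ =>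
    ⟨fun b => isFun_nm (hm b) q, fun x => ?_⟩
  refine mem_fimp.2 fun r _ hr => ⟨r, le_rfl, ?_⟩
  obtain ⟨h, g, hh, hg, hgb⟩ := exists_rb hc hB x
  obtain ⟨b, hb⟩ := hd' g hg
  refine mem_fex_of b fun s hs => ?_
  rw [evLe_iff hh (rp_nm (hm b)) ((reg_isFun _).1 r hr s hs) (isFun_nm (hm b) s)]
  filter_upwards [hgb, ev_fst (μ := μ) hb] with ω h1 h2 _
  filter_upwards [h1, h2] with n h3 h4
  exact h3.trans h4

end Main

theorem asm (hCCC : S_CCC) (hB : S_BND) (hCOV : S_COV) : S_ASM := by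
  intro X _ _ _ _ _ κ0 κ1 κ2 κ3 J I hX h0 h01 h12 h23 hJ hI hT0 hT1 hT2 hT3 hbd hdom p
  obtain ⟨T0⟩ := hT0
  obtain ⟨T1⟩ := hT1
  obtain ⟨T2⟩ := hT2
  obtain ⟨T3⟩ := hT3
  have hc : Ccc (FF X (coinProduct I)) := hCCC X _ (coinProduct I) hX
  have hal : ℵ₀ < ℵ₁ := aleph0_lt_aleph_one
  have g0 : ℵ₀ < κ0 := hal.trans h0
  have g1 : ℵ₀ < κ1 := g0.trans h01
  have g2 : ℵ₀ < κ2 := g1.trans h12
  have g3 : ℵ₀ < κ3 := g2.trans h23
  have o1 : (1 : Cardinal.{0}) < κ1 := one_lt_aleph0.trans g1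
  have o2 : (1 : Cardinal.{0}) < κ2 := one_lt_aleph0.trans g2
  obtain ⟨d, hd, hd'⟩ := hdom
  refine mem_fex_of (ZZ T1 T2) fun q _ => mem_fex_of (EE (coinProduct I) T1 T2) fun r _ =>
    ⟨isBase_EE T1 T2 r, ?_, ?_, ?_, ?_, ?_⟩
  · refine mem_fex_of (ℵ₁ : Cardinal.{0}).out fun s _ => ⟨unctb hc ?_ s, bdd hc hB (fun g hg =>
      hbd _ g (by rwa [mk_out]) hg) s⟩
    intro hcon
    have h1 := mk_le_aleph0_iff.2 hcon
    rw [mk_out] at h1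
    exact absurd h1 (not_le.2 hal)
  · exact mem_fex_of T0.K fun s _ => ⟨not_bdd hc hB T0 (one_lt_aleph0.trans g0) s,
      bddJ T1 T2 hc hB (by rwa [T0.card]) (by rw [T0.card]; exact h01.trans h12) s⟩
  · exact mem_fex_of T1.K fun s _ => ⟨not_bddJ T1 T2 hc hB o1 s,
      not_domJ T1 T2 hc hB (by rwa [T1.card]) s⟩
  · refine mem_fex_of (T1.K × T2.K) fun s _ => ⟨domJ T1 T2 hc hB o1 o2 s,
      not_dom hc hB T3 ?_ s⟩
    rw [mk_prod, lift_id, lift_id, T1.card, T2.card]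
    exact mul_lt_of_lt g3.le (h12.trans h23) h23
  · refine mem_fex_of J fun s _ => ⟨dom hc hB hd hd' s, ?_⟩
    exact hCOV X hX I J (g3.trans hI) (by rwa [hJ]) s

end Pool.Agent.Helper75.BJ
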