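import Pool.Agent.Helper75.BJ.Base

/-!
# Module BND: the functions of the second extension are bounded by functions of the first one
-/

set_option autoImplicit false

namespace Pool.Agent.Helper75.BJ

open Cardinal MeasureTheory Set Filter Topology
open scoped ENNReal

theorem bnd : S_BND := by
  classical
  intro X Y _ _ μ _ h hh
  -- the set where `h` is large
  set B : ℕ → ℕ → Set (X × Y) := fun n m => {z | m < h z n} with hB
  have hBm : ∀ n m, MeasurableSet (B n m) := by
    intro n m
    have h1 : B n m = ⋃ a ∈ {a : ℕ | m < a}, {z | h z n = a} := by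
      ext z
      simp [hB]
    rw [h1]
    exact MeasurableSet.biUnion (Set.to_countable _) fun a _ => hh n a
  set T : ℕ → ℕ → X → ℝ≥0∞ := fun n m x => μ (Prod.mk x ⁻¹' B n m) with hT
  have hTm : ∀ n m, Measurable (T n m) := fun n m => measurable_measure_prodMk_left (hBm n m)
  have hex : ∀ n x, ∃ m, T n m x < (1 / 2 : ℝ≥0∞) ^ n := by
    intro n x
    have h1 : Tendsto (fun m => μ (Prod.mk x ⁻¹' B n m)) atTop
        (𝓝 (μ (⋂ m, Prod.mk x ⁻¹' B n m))) := by
      apply tendsto_measure_iInter_atTop
      · intro m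
        exact (measurable_prodMk_left (hBm n m)).nullMeasurableSet
      · intro a b hab y hy
        exact lt_of_le_of_lt hab hy
      · exact ⟨0, measure_ne_top _ _⟩
    have h2 : (⋂ m, Prod.mk x ⁻¹' B n m) = ∅ := by
      ext y
      simp only [Set.mem_iInter, Set.mem_empty_iff_false, iff_false]
      intro h3
      have h4 : h (x, y) n < h (x, y) n := by simpa [hB] using h3 (h (x, y) n)
      exact lt_irrefl _ h4
    rw [h2, measure_empty] at h1
    have h3 : (0 : ℝ≥0∞) < (1 / 2) ^ n := by
      apply ENNReal.pow_pos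
      norm_num
    exact (h1.eventually_lt_const h3).exists
  refine ⟨fun x n => Nat.find (hex n x), fun n a => ?_, fun x => ?_⟩
  · have h1 : {x | Nat.find (hex n x) = a} = {x | T n a x < (1 / 2 : ℝ≥0∞) ^ n} ∩
        ⋂ b ∈ {b : ℕ | b < a}, {x | T n b x < (1 / 2 : ℝ≥0∞) ^ n}ᶜ := by
      ext x
      simp only [Set.mem_ofPred_eq, Set.mem_inter_iff, Set.mem_iInter, Set.mem_compl_iff]
      exact Nat.find_eq_iff (hex n x)
    rw [h1]
    exact (measurableSet_lt (hTm n a) measurable_const).inter
      (MeasurableSet.biInter (Set.to_countable _) fun b _ =>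
        (measurableSet_lt (hTm n b) measurable_const).compl)
  · have h1 : ∀ n, μ {y | Nat.find (hex n x) < h (x, y) n} ≤ (1 / 2 : ℝ≥0∞) ^ n := fun n =>
      (Nat.find_spec (hex n x)).le
    have h2 : (∑' n, μ {y | Nat.find (hex n x) < h (x, y) n}) ≠ ∞ := by
      refine ne_top_of_le_ne_top ?_ (ENNReal.tsum_le_tsum h1)
      rw [ENNReal.tsum_geometric]
      norm_num
    have h3 := ae_eventually_notMem h2
    filter_upwards [h3] with y hy
    filter_upwards [hy] with n hn
    exact not_lt.1 hn

end Pool.Agent.Helper75.BJ
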