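import Pool.Graph.R_seed8.Y575.MA.Dom
import Pool.Graph.R_seed8.R592.Ent.Ground

/-!
# `ℵ₁ < 𝔟 < 𝔟_J < 𝔡_J < 𝔡 < cov(𝒩)`: definitions and the statements of the modules

The forcing. `Cond Q` is the finite support iteration of Hechler type along a partial order `Q` of the
library. Its generic points form a space `Xs Q` with the topology generated by the sets of the points
which obey a condition. The second step, the measure algebra of `2 ^ (I × ω)` of the extension, is
represented as follows: the conditions of the two step iteration are the measurable sets in the product of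
`Xs Q` and `2 ^ (I × ω)`, modulo the sets almost all sections of which (in the sense of category) have
measure zero.
-/

set_option autoImplicit false
set_option linter.unusedSectionVars false

namespace Pool.Agent.Helper75.BJ

open Cardinal MeasureTheory Set Filter Topology TopologicalSpace
open Pool.Agent.TH773.PSet Pool.Agent.R593.Rnd Pool.Agent.R592.Ent
open Pool.Agent.Y575.MA (QT)
open scoped ENNReal

universe u v w

/-! ### Sentences -/

section Sentences

variable {P : Type u} [Preorder P]

variable (P) in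
/-- The set `Y` is uncountable: it has an element and no function from `ω` to `Y` is onto. -/
def Unctb (Y : Type v) : Set P :=
  fand (fex fun _ : Y => Set.univ) (fnot (fex fun R : ℕ → Y → Set P => fand (IsFun R) (IsOnto R)))

variable (P) in
/-- Every family of functions from `ω` to `ω` indexed by `Y` is bounded for `≤*`: `|Y| < 𝔟`. -/
def BddFin (Y : Type v) : Set P :=
  fall fun D : Y → ℕ → ℕ → Set P => fimp (fall fun y => IsFun (D y))
    (fex fun g : ℕ → ℕ → Set P => fand (IsFun g) (fall fun y => EvLe (D y) g))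

/-- The subsets `E z` of `ω` are a base of a proper ideal on `ω` which contains the finite sets: every
finite set is included in some `E z`, any two of the sets `E z` are included in a third one, and no
`E z` is equal to `ω`. -/
def IsBase {Z : Type v} (E : Z → RName P) : Set P :=
  fand (fall fun N : ℕ => fex fun z => fall fun n => fall fun _ : n < N => meets (E z n))
    (fand (fall fun z => fall fun z' => fex fun z'' => fand (Sub (E z) (E z'')) (Sub (E z') (E z'')))
      (fall fun z => fex fun n => fnot (meets (E z n))))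

/-- `f ≤_J g`, where `J` is the ideal with the base `E`: the set of all `n` with `g n < f n` is included
in some `E z`. -/
def LeJ {Z : Type v} (E : Z → RName P) (f g : ℕ → ℕ → Set P) : Set P :=
  fex fun z => fall fun n => fall fun a => fall fun b => fall fun _ : b < a =>
    fimp (fand (meets (f n a)) (meets (g n b))) (meets (E z n))

/-- Every family of functions from `ω` to `ω` indexed by `Y` is bounded for `≤_J`: `|Y| < 𝔟_J`. -/
def BddJ {Z : Type w} (E : Z → RName P) (Y : Type v) : Set P :=
  fall fun D : Y → ℕ → ℕ → Set P => fimp (fall fun y => IsFun (D y))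
    (fex fun g : ℕ → ℕ → Set P => fand (IsFun g) (fall fun y => LeJ E (D y) g))

/-- Some family of functions from `ω` to `ω` indexed by `Y` is dominating for `≤_J`: `𝔡_J ≤ |Y|`. -/
def DomJ {Z : Type w} (E : Z → RName P) (Y : Type v) : Set P :=
  fex fun D : Y → ℕ → ℕ → Set P =>
    fand (fall fun y => IsFun (D y))
      (fall fun f : ℕ → ℕ → Set P => fimp (IsFun f) (fex fun y => LeJ E f (D y)))

variable (P) in
/-- There is an ideal `J` on `ω`, given by a base, such that
`ℵ₁ < 𝔟 < 𝔟_J < 𝔡_J < 𝔡 < cov(𝒩)`. Each inequality `𝔵 < 𝔶` is expressed by a set `Y` with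
`𝔵 ≤ |Y| < 𝔶`. -/
def Model : Set P :=
  fex fun Z : Type => fex fun E : Z → RName P =>
    fand (IsBase E)
      (fand (fex fun Y : Type => fand (Unctb P Y) (BddFin P Y))
        (fand (fex fun Y : Type => fand (fnot (BddFin P Y)) (BddJ E Y))
          (fand (fex fun Y : Type => fand (fnot (BddJ E Y)) (fnot (DomJ E Y)))
            (fand (fex fun Y : Type => fand (DomJ E Y) (fnot (DominatingLe P Y)))
              (fex fun Y : Type => fand (DominatingLe P Y) (fnot (CovNLe P Y)))))))

end Sentences

/-! ### The cardinal characteristics -/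

/-- `J` is a proper ideal on `ω` which contains the finite sets -/
structure IsIdeal (J : Set (Set ℕ)) : Prop where
  fin : ∀ s : Set ℕ, s.Finite → s ∈ J
  sub : ∀ s ∈ J, ∀ t, t ⊆ s → t ∈ J
  union : ∀ s ∈ J, ∀ t ∈ J, s ∪ t ∈ J
  proper : Set.univ ∉ J

/-- the ideal of the finite sets -/
def Fin : Set (Set ℕ) := {s | s.Finite}

/-- `𝔟_J`: the least size of a family of functions from `ω` to `ω` which is unbounded for `≤_J`, where
`f ≤_J g` if `{n | f n > g n} ∈ J` -/
noncomputable def bJ (J : Set (Set ℕ)) : Cardinal.{0} :=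
  sInf {κ | ∃ F : Set (ℕ → ℕ), (¬ ∃ g : ℕ → ℕ, ∀ f ∈ F, {n | f n > g n} ∈ J) ∧ #F = κ}

/-- `𝔡_J`: the least size of a family of functions from `ω` to `ω` which is dominating for `≤_J` -/
noncomputable def dJ (J : Set (Set ℕ)) : Cardinal.{0} :=
  sInf {κ | ∃ D : Set (ℕ → ℕ), (∀ f : ℕ → ℕ, ∃ g ∈ D, {n | f n > g n} ∈ J) ∧ #D = κ}

/-- **GRD**: the meaning of the sentence `Model` over the trivial forcing. -/
def S_GRD : Prop :=
  ∀ p : Unit, p ∈ Model Unit ↔ ∃ J : Set (Set ℕ), IsIdeal J ∧
    ℵ₁ < bJ Fin ∧ bJ Fin < bJ J ∧ bJ J < dJ J ∧ dJ J < dJ Fin ∧ dJ Fin < covN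

/-! ### Forcing with the positive sets of a filter -/

section Filt

variable {Ω : Type} [MeasurableSpace Ω]

/-- the conditions: measurable sets whose complement does not belong to the filter -/
def Cf (F : Filter Ω) : Type := {A : Set Ω // MeasurableSet A ∧ Aᶜ ∉ F}

instance (F : Filter Ω) : Preorder (Cf F) where
  le A B := ∀ᶠ x in F, x ∈ A.1 → x ∈ B.1
  le_refl A := Eventually.of_forall fun _ h => h
  le_trans A B C h h' := by
    filter_upwards [h, h'] with x h1 h2 h3 using h2 (h1 h3)

/-- the countable chain condition: disjoint families of positive measurable sets are countable -/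
def Ccc (F : Filter Ω) : Prop :=
  ∀ (ι : Type) (A : ι → Set Ω), (∀ i, MeasurableSet (A i)) → (∀ i, (A i)ᶜ ∉ F) →
    (∀ i j, i ≠ j → (A i ∩ A j)ᶜ ∈ F) → Countable ι

/-- measurable functions to `ω ^ ω` -/
def Mf {X : Type} [MeasurableSpace X] (g : X → ℕ → ℕ) : Prop :=
  ∀ n a, MeasurableSet {x | g x n = a}

end Filt

/-! ### The product of category and measure -/

section Prod

/-- the filter of the sets which contain, for residually many `x`, almost all points of the section
at `x` -/
def FF (X : Type) [TopologicalSpace X] {Y : Type} [MeasurableSpace Y] (μ : Measure Y) :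
    Filter (X × Y) :=
  (residual X).bind fun x => (ae μ).map (Prod.mk x)

theorem mem_FF {X : Type} [TopologicalSpace X] {Y : Type} [MeasurableSpace Y] {μ : Measure Y}
    {s : Set (X × Y)} : s ∈ FF X μ ↔ ∀ᶠ x in residual X, ∀ᵐ y ∂μ, (x, y) ∈ s := Iff.rfl

theorem eventually_FF {X : Type} [TopologicalSpace X] {Y : Type} [MeasurableSpace Y]
    {μ : Measure Y} {p : X × Y → Prop} :
    (∀ᶠ z in FF X μ, p z) ↔ ∀ᶠ x in residual X, ∀ᵐ y ∂μ, p (x, y) := Iff.rfl

instance {X : Type} [TopologicalSpace X] {Y : Type} [MeasurableSpace Y] {μ : Measure Y} :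
    CountableInterFilter (FF X μ) := by
  refine ⟨fun S hS h => ?_⟩
  rw [mem_FF]
  have h1 : ∀ᶠ x in residual X, ∀ s ∈ S, ∀ᵐ y ∂μ, (x, y) ∈ s :=
    (eventually_countable_ball hS).2 fun s hs => mem_FF.1 (h s hs)
  filter_upwards [h1] with x hx
  have h2 : ∀ᵐ y ∂μ, ∀ s ∈ S, (x, y) ∈ s := (ae_ball_iff hS).2 fun s hs => hx s hs
  filter_upwards [h2] with y hy
  exact hy

/-- the countable chain condition for the open sets of a space -/
def OCcc (X : Type) [TopologicalSpace X] : Prop :=
  ∀ (ι : Type) (U : ι → Set X), (∀ i, IsOpen (U i)) → (∀ i, (U i).Nonempty) →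
    (∀ i j, i ≠ j → Disjoint (U i) (U j)) → Countable ι

/-- **CCC**: the chain condition for the product of category and measure. Idea: if uncountably many
positive sets `A i` are pairwise almost disjoint, then for some `k` uncountably many `i` have a
nonempty open set `U i` with `μ (section of A i at x) ≥ 1 / k` for residually many `x` in `U i` (sets with
the property of Baire). There cannot be `k + 1` indices with `⋂ U i ≠ ∅` (sum of measures). Take the
largest `l` such that there are uncountably many finite sets `F` of `l` indices with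
`⋂ i ∈ F, U i ≠ ∅`; remove the countably many `F` which are included in one of the countably many such
sets with `l + 1` elements; the remaining sets `⋂ i ∈ F, U i` are pairwise disjoint. -/
def S_CCC : Prop :=
  ∀ (X Y : Type) [TopologicalSpace X] [MeasurableSpace X] [BorelSpace X] [BaireSpace X]
    [MeasurableSpace Y] (μ : Measure Y) [IsProbabilityMeasure μ], OCcc X → Ccc (FF X μ)

/-- **BND**: the functions of the second extension are bounded by functions of the first one
(Borel-Cantelli in every section; `measurable_measure_prodMk_left`). -/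
def S_BND : Prop :=
  ∀ (X Y : Type) [MeasurableSpace X] [MeasurableSpace Y] (μ : Measure Y) [IsProbabilityMeasure μ]
    (h : X × Y → ℕ → ℕ), Mf h → ∃ g : X → ℕ → ℕ, Mf g ∧
      ∀ x, ∀ᵐ y ∂μ, ∀ᶠ n in atTop, h (x, y) n ≤ g x n

/-- **COV**: fewer null sets than random reals do not cover `2 ^ ω` (adapt the proof of
`Pool.Agent.R592.Ent.not_covNLe`, section by section, with the calculus of the module REP). -/
def S_COV : Prop :=
  ∀ (X : Type) [TopologicalSpace X] [MeasurableSpace X] [BorelSpace X] [BaireSpace X], OCcc X →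
    ∀ (I M : Type), ℵ₀ < #I → #M < #I → ∀ p : Cf (FF X (coinProduct I)),
      p ∈ fnot (CovNLe (Cf (FF X (coinProduct I))) M)

/-- **A tower**: functions `c α` which are Cohen generic over increasing sets `M α` of measurable functions. -/
structure Tower (X : Type) [TopologicalSpace X] [MeasurableSpace X] (κ : Cardinal.{0}) where
  /-- the index set -/
  K : Type
  card : #K = κ
  /-- the Cohen functions -/
  c : K → X → ℕ → ℕ
  /-- the functions which are older than the function with index `α` -/
  M : K → Set (X → ℕ → ℕ)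
  meas : ∀ α, Mf (c α)
  mM : ∀ α, ∀ g ∈ M α, Mf g
  absorb : ∀ (Y : Type) (g : Y → X → ℕ → ℕ), #Y < κ → (∀ y, Mf (g y)) → ∃ α, ∀ y, g y ∈ M α
  generic : ∀ L : List (K × (X → ℕ → ℕ)), (∀ t ∈ L, t.2 ∈ M t.1) →
    ∀ᶠ x in residual X, ∀ N par : ℕ, ∃ n, N ≤ n ∧ n % 2 = par % 2 ∧ ∀ t ∈ L, t.2 x n < c t.1 x n

end Prod

/-! ### The iteration -/

section Iter

variable {J : Type} [LinearOrder J] [WellFoundedLT J]

/-- the conditions of the first step -/
abbrev Cnd (Q : J → J → Prop) : Type := Pool.Agent.Y575.MA.Cond Q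

/-- the space of the generic points -/
def Xs (_Q : J → J → Prop) : Type := WithTop J → ℕ → ℕ

/-- the set of the points which obey the condition `r` -/
def bp {Q : J → J → Prop} (r : Cnd Q) : Set (Xs Q) := Pool.Agent.Helper669.Iter.bs r.1 ⊤

instance (Q : J → J → Prop) : TopologicalSpace (Xs Q) := generateFrom (range fun r : Cnd Q => bp r)

instance (Q : J → J → Prop) : MeasurableSpace (Xs Q) := borel _

instance (Q : J → J → Prop) : BorelSpace (Xs Q) := ⟨rfl⟩

/-- **TOP**: the sets `bp r` are a base of the topology (`inter_point`), `Xs Q` is a Baire space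
(`exists_limit`, `exists_long_all`), the open sets satisfy the countable chain condition (`cond_ccc`), the
sets `bp r` are nonempty (`bs_nonempty`) and decrease (`bs_le`), conditions with `bp r ∩ bp r' ≠ ∅` are
compatible (`compat_of_point`), and a property holds residually if it holds residually in `bp p'` for a dense
set of conditions `p'` (`exists_antichain`). -/
def S_TOP : Prop :=
  ∀ (J : Type) [LinearOrder J] [WellFoundedLT J] (Q : J → J → Prop),
    IsTopologicalBasis (range fun r : Cnd Q => bp r) ∧ BaireSpace (Xs Q) ∧ OCcc (Xs Q) ∧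
    (∀ r : Cnd Q, (bp r).Nonempty) ∧ (∀ r r' : Cnd Q, r ≤ r' → bp r ⊆ bp r') ∧
    (∀ (r r' : Cnd Q) (w : Xs Q), w ∈ bp r → w ∈ bp r' → ∃ q, q ≤ r ∧ q ≤ r' ∧ w ∈ bp q) ∧
    (∀ φ : Xs Q → Prop, (∀ p : Cnd Q, ∃ p' ≤ p, ∀ᶠ x in residual (Xs Q), x ∈ bp p' → φ x) →
      ∀ᶠ x in residual (Xs Q), φ x)

/-- The values of the function `g` can be decided without changing the stems outside `D`. -/
def Dec (Q : J → J → Prop) (D : Set J) (g : Xs Q → ℕ → ℕ) : Prop :=
  ∀ (n : ℕ) (r : Cnd Q), ∃ r' ≤ r, (∀ ζ : J, ζ ∉ D → r'.1.st (ζ : WithTop J) = r.1.st (ζ : WithTop J)) ∧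
    ∃ m, ∀ᶠ x in residual (Xs Q), x ∈ bp r' → g x n = m

/-- **DEC**: countable supports of measurable functions. For each `n` the conditions `a` with
`∃ m, ∀ᶠ x in residual, x ∈ bp a → g x n = m` are dense (`MeasurableSet.residualEq_isOpen`, Baire); take a
countable predense set `A n` of such conditions (`exists_antichain`); `S` is the union of the supports; `amalD`
and `dominated_aux`. The second part says that a Hechler function above the support dominates `g`: the
promise `R n m = ⋃ a ∈ A n, v n a ≤ m, bs a b`. -/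
def S_DEC : Prop :=
  ∀ (J : Type) [LinearOrder J] [WellFoundedLT J] (Q : J → J → Prop), (∀ x y, Q x y → x < y) →
    ∀ g : Xs Q → ℕ → ℕ, Mf g → ∃ S : Set J, S.Countable ∧
      (∀ D : Set J, (∀ ξ ∈ D, ∀ η, Q η ξ → η ∈ D) → S ⊆ D → Dec Q D g) ∧
      (∀ b : J, (∀ s ∈ S, Q s b) → ∀ᶠ x in residual (Xs Q), ∀ᶠ n in atTop,
        g x n ≤ x (b : WithTop J) n)

/-- the Cohen function at the coordinate `ζ` -/
def Ch {Q : J → J → Prop} (ζ : J) (x : Xs Q) (n : ℕ) : ℕ := (Nat.unpair (x (ζ : WithTop J) n)).1

/-- **COH**: the Cohen functions at the coordinates `e α` are generic: for given `N`, `par` and `r` take a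
large `n` of the given parity, not less than the lengths of the stems of `r` at the coordinates `e α`, treat
the `α` in increasing order: decide all the values `t.2 x n` for the `t` with `t.1 = α`, and then push at
`e α` (`push_one` does not change later stems). -/
def S_COH : Prop :=
  ∀ (J : Type) [LinearOrder J] [WellFoundedLT J] (Q : J → J → Prop) (K : Type) [LinearOrder K]
    (e : K → J) (D : K → Set J), StrictMono e → (∀ a b, a ≤ b → e b ∉ D a) →
    ∀ L : List (K × (Xs Q → ℕ → ℕ)), (∀ t ∈ L, Dec Q (D t.1) t.2) →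
      ∀ᶠ x in residual (Xs Q), ∀ N par : ℕ, ∃ n, N ≤ n ∧ n % 2 = par % 2 ∧
        ∀ t ∈ L, t.2 x n < Ch (e t.1) x n

/-- **TOW**: the tower given by a coordinate (from DEC and COH; `c α = Ch (e α)`,
`M α = {g | Mf g ∧ Dec Q {x | co x < α} g}`). -/
def S_TOW : Prop :=
  ∀ (J : Type) [LinearOrder J] [WellFoundedLT J] (Q : J → J → Prop) (κ : Cardinal.{0}),
    κ.IsRegular → ℵ₀ < κ → ∀ (co : J → κ.ord.ToType) (e : κ.ord.ToType → J), StrictMono e →
    (∀ a, co (e a) = a) → (∀ x y, Q x y → co x < co y) → (∀ x y, Q x y → x < y) →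
      Nonempty (Tower (Xs Q) κ)

/-- **IDX**: the index set with four coordinates (a lexicographic product of the four cardinals
`κ 0 < κ 1 < κ 2 < κ 3`, with `Q x y` if all four coordinates of `x` are smaller). -/
def S_IDX : Prop :=
  ∀ κ0 κ1 κ2 κ3 : Cardinal.{0}, κ0.IsRegular → κ1.IsRegular → κ2.IsRegular → κ3.IsRegular →
    ℵ₀ < κ0 → κ0 < κ1 → κ1 < κ2 → κ2 < κ3 →
    ∃ (J : Type) (_ : LinearOrder J) (_ : WellFoundedLT J) (Q : J → J → Prop),
      (∀ x y, Q x y → x < y) ∧ #J = κ3 ∧ (∀ S : Set J, #S < κ0 → ∃ b, ∀ s ∈ S, Q s b) ∧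
      (∃ (co : J → κ0.ord.ToType) (e : κ0.ord.ToType → J), StrictMono e ∧ (∀ a, co (e a) = a) ∧
        ∀ x y, Q x y → co x < co y) ∧
      (∃ (co : J → κ1.ord.ToType) (e : κ1.ord.ToType → J), StrictMono e ∧ (∀ a, co (e a) = a) ∧
        ∀ x y, Q x y → co x < co y) ∧
      (∃ (co : J → κ2.ord.ToType) (e : κ2.ord.ToType → J), StrictMono e ∧ (∀ a, co (e a) = a) ∧
        ∀ x y, Q x y → co x < co y) ∧
      (∃ (co : J → κ3.ord.ToType) (e : κ3.ord.ToType → J), StrictMono e ∧ (∀ a, co (e a) = a) ∧
        ∀ x y, Q x y → co x < co y)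

end Iter

/-- **ASM**: the assembly. -/
def S_ASM : Prop :=
  ∀ (X : Type) [TopologicalSpace X] [MeasurableSpace X] [BorelSpace X] [BaireSpace X] [Nonempty X]
    (κ0 κ1 κ2 κ3 : Cardinal.{0}) (J I : Type), OCcc X → ℵ₁ < κ0 → κ0 < κ1 → κ1 < κ2 → κ2 < κ3 →
    #J = κ3 → κ3 < #I → Nonempty (Tower X κ0) → Nonempty (Tower X κ1) → Nonempty (Tower X κ2) →
    Nonempty (Tower X κ3) →
    (∀ (Y : Type) (g : Y → X → ℕ → ℕ), #Y < κ0 → (∀ y, Mf (g y)) → ∃ d : X → ℕ → ℕ, Mf d ∧
      ∀ y, ∀ᶠ x in residual X, ∀ᶠ n in atTop, g y x n ≤ d x n) →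
    (∃ d : J → X → ℕ → ℕ, (∀ b, Mf (d b)) ∧ ∀ g : X → ℕ → ℕ, Mf g → ∃ b,
      ∀ᶠ x in residual X, ∀ᶠ n in atTop, g x n ≤ d b x n) →
    ∀ p : Cf (FF X (coinProduct I)), p ∈ Model (Cf (FF X (coinProduct I)))

end Pool.Agent.Helper75.BJ
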