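import Pool.Agent.Helper75.BJ.Base

/-!
# Module CCC: the chain condition for the product of category and measure
-/

set_option autoImplicit false

namespace Pool.Agent.Helper75.BJ

open Cardinal MeasureTheory Set Filter Topology
open scoped ENNReal

/-- families of open sets of bounded multiplicity are countable -/
theorem ccc_key {X : Type} [TopologicalSpace X] (hX : OCcc X) {ι : Type} (U : ι → Set X)
    (hU : ∀ i, IsOpen (U i)) (hne : ∀ i, (U i).Nonempty) (n : ℕ)
    (hn : ∀ F : Finset ι, (⋂ i ∈ F, U i).Nonempty → F.card ≤ n) : Countable ι := by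
  classical
  set C : ℕ → Set (Finset ι) := fun l => {F | F.card = l ∧ (⋂ i ∈ F, U i).Nonempty} with hC
  have step : ∀ l, (C (l + 1)).Countable → (C l).Countable := by
    intro l hl
    set G : Set (Finset ι) := {F | F ∈ C l ∧ ∀ F' ∈ C (l + 1), ¬ F ⊆ F'} with hG
    have hGc : G.Countable := by
      rw [← Set.countable_coe_iff]
      apply hX G fun F => ⋂ i ∈ F.1, U i
      · intro F
        exact isOpen_biInter_finset fun i _ => hU i
      · rintro ⟨F, hF1, hF2⟩
        exact hF1.2
      · rintro ⟨F, hF1, hF2⟩ ⟨F', hF1', hF2'⟩ hFF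
        have hne' : F ≠ F' := fun h => hFF (Subtype.ext h)
        rw [Set.disjoint_left]
        intro x hx hx'
        -- an element of `F'` outside `F`
        obtain ⟨j, hj, hjF⟩ : ∃ j ∈ F', j ∉ F := by
          by_contra hcon
          push Not at hcon
          apply hne'
          exact (Finset.eq_of_subset_of_card_le hcon (by rw [hF1.1, hF1'.1])).symm
        apply hF2 (insert j F) ⟨?_, ⟨x, ?_⟩⟩ (Finset.subset_insert j F)
        · rw [Finset.card_insert_of_notMem hjF, hF1.1]
        · simp only [Set.mem_iInter] at hx hx' ⊢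
          intro i hi
          rcases Finset.mem_insert.1 hi with rfl | hi
          · exact hx' i hj
          · exact hx i hi
    have hsub : C l ⊆ G ∪ ⋃ F' ∈ C (l + 1), {F | F ⊆ F'} := by
      intro F hF
      by_cases h : ∀ F' ∈ C (l + 1), ¬ F ⊆ F'
      · exact Or.inl ⟨hF, h⟩
      · push Not at h
        obtain ⟨F', h1, h2⟩ := h
        right
        simp only [Set.mem_iUnion]
        exact ⟨F', h1, h2⟩
    refine Set.Countable.mono hsub (hGc.union (hl.biUnion fun F' _ => ?_))
    have h1 : {F | F ⊆ F'} = (F'.powerset : Set (Finset ι)) := by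
      ext F
      simp
    rw [h1]
    exact (Finset.finite_toSet _).countable
  have hall : ∀ m, (C (n + 1 - m)).Countable := by
    intro m
    induction m with
    | zero =>
      have h1 : C (n + 1 - 0) = ∅ := by
        rw [Set.eq_empty_iff_forall_notMem]
        rintro F ⟨h1, h2⟩
        have := hn F h2
        omega
      rw [h1]
      exact Set.countable_empty
    | succ m ih =>
      by_cases h : n + 1 - m = 0
      · have h1 : n + 1 - (m + 1) = n + 1 - m := by omega
        rw [h1]
        exact ih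
      · apply step
        have h1 : n + 1 - (m + 1) + 1 = n + 1 - m := by omega
        rw [h1]
        exact ih
  have h1 : (C 1).Countable := by
    have := hall n
    have h2 : n + 1 - n = 1 := by omega
    rwa [h2] at this
  have h2 : Countable (C 1) := Set.countable_coe_iff.2 h1
  have h3 : ∀ i, ({i} : Finset ι) ∈ C 1 := by
    intro i
    refine ⟨Finset.card_singleton i, ?_⟩
    obtain ⟨x, hx⟩ := hne i
    refine ⟨x, ?_⟩
    simp only [Set.mem_iInter, Finset.mem_singleton]
    rintro j rfl
    exact hx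
  exact Function.Injective.countable (f := fun i => (⟨{i}, h3 i⟩ : C 1)) fun i j hij => by
    have h4 : ({i} : Finset ι) = {j} := congrArg Subtype.val hij
    exact Finset.singleton_injective h4

theorem ccc : S_CCC := by
  classical
  intro X Y _ _ _ _ _ μ _ hX ι A hA hpos hdis
  set T : ι → X → ℝ≥0∞ := fun i x => μ (Prod.mk x ⁻¹' A i) with hT
  have hTm : ∀ i, Measurable (T i) := fun i => measurable_measure_prodMk_left (hA i)
  -- the open sets
  have hex : ∀ i, ∃ (k : ℕ) (U : Set X), IsOpen U ∧ U.Nonempty ∧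
      ∀ᶠ x in residual X, x ∈ U → ((k : ℝ≥0∞) + 1)⁻¹ ≤ T i x := by
    intro i
    have h1 : ∃ k : ℕ, ¬ ∀ᶠ x in residual X, ¬ ((k : ℝ≥0∞) + 1)⁻¹ ≤ T i x := by
      by_contra hcon
      push Not at hcon
      apply hpos i
      rw [mem_FF]
      have h2 : ∀ᶠ x in residual X, ∀ k : ℕ, T i x < ((k : ℝ≥0∞) + 1)⁻¹ :=
        eventually_countable_forall.2 hcon
      filter_upwards [h2] with x hx
      have h3 : T i x = 0 := by
        by_contra h0
        obtain ⟨k, hk⟩ := ENNReal.exists_inv_nat_lt h0
        have h4 := hx k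
        have h5 : ((k : ℝ≥0∞) + 1)⁻¹ ≤ (k : ℝ≥0∞)⁻¹ := ENNReal.inv_le_inv.2 le_self_add
        exact absurd (h4.trans_le h5) (not_lt.2 hk.le)
      have h4 : ∀ᵐ y ∂μ, y ∉ Prod.mk x ⁻¹' A i := measure_eq_zero_iff_ae_notMem.1 h3
      filter_upwards [h4] with y hy
      exact hy
    obtain ⟨k, hk⟩ := h1
    have hm : MeasurableSet {x | ((k : ℝ≥0∞) + 1)⁻¹ ≤ T i x} :=
      measurableSet_le measurable_const (hTm i)
    obtain ⟨U, hU, hPU⟩ := hm.residualEq_isOpen
    refine ⟨k, U, hU, ?_, ?_⟩
    · by_contra hcon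
      rw [Set.not_nonempty_iff_eq_empty] at hcon
      apply hk
      filter_upwards [hPU] with x hx
      intro h2
      have h3 : x ∈ U := (iff_of_eq hx).1 h2
      rw [hcon] at h3
      exact h3
    · filter_upwards [hPU] with x hx hxU
      exact (iff_of_eq hx).2 hxU
  choose κ U hU hUne hUT using hex
  have hfib : ∀ k : ℕ, {i | κ i = k}.Countable := by
    intro k
    rw [← Set.countable_coe_iff]
    apply ccc_key hX (fun i : {i | κ i = k} => U i.1) (fun i => hU i.1) (fun i => hUne i.1) (k + 1)
    intro F hF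
    by_contra hcon
    push Not at hcon
    have hW : IsOpen (⋂ i ∈ F, U i.1) := isOpen_biInter_finset fun i _ => hU i.1
    have e1 : ∀ᶠ x in residual X, ∀ i ∈ F, x ∈ U i.1 → ((κ i.1 : ℝ≥0∞) + 1)⁻¹ ≤ T i.1 x :=
      (Filter.eventually_all_finset F).2 fun i _ => hUT i.1
    have e2 : ∀ᶠ x in residual X, ∀ i ∈ F, ∀ j ∈ F, i ≠ j →
        μ (Prod.mk x ⁻¹' A i.1 ∩ Prod.mk x ⁻¹' A j.1) = 0 := by
      refine (Filter.eventually_all_finset F).2 fun i _ => (Filter.eventually_all_finset F).2
        fun j _ => ?_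
      by_cases hij : i = j
      · exact Eventually.of_forall fun x h => absurd hij h
      · have h1 := hdis i.1 j.1 (fun h => hij (Subtype.ext h))
        rw [mem_FF] at h1
        filter_upwards [h1] with x hx _
        rw [measure_eq_zero_iff_ae_notMem]
        filter_upwards [hx] with y hy
        exact hy
    obtain ⟨x, hxW, hx1, hx2⟩ :=
      (dense_of_mem_residual (e1.and e2)).inter_open_nonempty _ hW hF
    have hx1' : ∀ i ∈ F, ((k : ℝ≥0∞) + 1)⁻¹ ≤ T i.1 x := by
      intro i hi
      have h1 := hx1 i hi (by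
        have := Set.mem_iInter₂.1 hxW i hi
        exact this)
      have h2 : κ i.1 = k := i.2
      rwa [h2] at h1
    have hsum : ∑ i ∈ F, T i.1 x ≤ 1 := by
      have h1 : μ (⋃ i ∈ F, Prod.mk x ⁻¹' A i.1) = ∑ i ∈ F, μ (Prod.mk x ⁻¹' A i.1) := by
        apply measure_biUnion_finset₀
        · intro i hi j hj hij
          exact hx2 i hi j hj hij
        · intro i _
          exact (measurable_prodMk_left (hA i.1)).nullMeasurableSet
      change ∑ i ∈ F, μ (Prod.mk x ⁻¹' A i.1) ≤ 1
      rw [← h1]
      exact prob_le_one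
    have h2 : F.card • ((k : ℝ≥0∞) + 1)⁻¹ ≤ 1 := (Finset.card_nsmul_le_sum F _ _ hx1').trans hsum
    rw [nsmul_eq_mul, ← div_eq_mul_inv, ENNReal.div_le_iff (by simp) (by
      exact ENNReal.add_ne_top.2 ⟨ENNReal.natCast_ne_top k, ENNReal.one_ne_top⟩), one_mul] at h2
    have h3 : F.card ≤ k + 1 := by exact_mod_cast h2
    omega
  have h1 : (Set.univ : Set ι) = ⋃ k : ℕ, {i | κ i = k} := by
    ext i
    simp
  rw [← Set.countable_univ_iff, h1]
  exact Set.countable_iUnion hfib

end Pool.Agent.Helper75.BJ
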