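import Pool.Agent.Helper75.BJ.Base

/-!
# COH: the Cohen functions at increasing coordinates are generic
-/

set_option autoImplicit false
set_option linter.unusedSectionVars false

namespace Pool.Agent.Helper75.BJ

open Cardinal MeasureTheory Set Filter Topology TopologicalSpace
open Pool.Agent.Y575.MA (push_one)

section Coh

variable {J : Type} [LinearOrder J] [WellFoundedLT J] {Q : J → J → Prop}

theorem coh_bp_mono {r r' : Cnd Q} (h : r ≤ r') : bp r ⊆ bp r' :=
  Pool.Agent.Helper669.Iter.bs_le h ⊤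

/-- bounds for the values of finitely many functions -/
theorem coh_decide (D : Set J) (n : ℕ) : ∀ G : List (Xs Q → ℕ → ℕ), (∀ g ∈ G, Dec Q D g) →
    ∀ r : Cnd Q, ∃ r' ≤ r,
      (∀ ζ : J, ζ ∉ D → r'.1.st (ζ : WithTop J) = r.1.st (ζ : WithTop J)) ∧
      ∃ M : ℕ, ∀ᶠ x in residual (Xs Q), x ∈ bp r' → ∀ g ∈ G, g x n ≤ M
  | [], _, r => ⟨r, le_rfl, fun _ _ => rfl, 0, Eventually.of_forall fun _ _ _ h =>
      absurd h List.not_mem_nil⟩
  | g :: G, hG, r => by
    obtain ⟨r1, h1, hst1, M, hM⟩ := coh_decide D n G (fun g hg => hG g (List.mem_cons_of_mem _ hg)) r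
    obtain ⟨r2, h2, hst2, m, hm⟩ := hG g List.mem_cons_self n r1
    refine ⟨r2, h2.trans h1, fun ζ hζ => (hst2 ζ hζ).trans (hst1 ζ hζ), max m M, ?_⟩
    filter_upwards [hM, hm] with x hx1 hx2 hx g' hg'
    rcases List.mem_cons.1 hg' with rfl | hg'
    · exact (hx2 hx).le.trans (le_max_left _ _)
    · exact (hx1 (coh_bp_mono h2 hx) g' hg').trans (le_max_right _ _)

/-- lengthen the stem at one coordinate to a given length -/
theorem coh_long (η : J) (n : ℕ) : ∀ k : ℕ, ∀ r : Cnd Q,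
    (r.1.st (η : WithTop J)).length + k = n → ∃ r' ≤ r, (r'.1.st (η : WithTop J)).length = n ∧
      ∀ ζ : J, η < ζ → r'.1.st (ζ : WithTop J) = r.1.st (ζ : WithTop J)
  | 0, r, h => ⟨r, le_rfl, h, fun _ _ => rfl⟩
  | k + 1, r, h => by
    obtain ⟨m, _, r1, h1, hst, hst'⟩ := push_one r η Set.univ Set.infinite_univ
    obtain ⟨r2, h2, hl, hst2⟩ := coh_long η n k r1 (by rw [hst]; simp; omega)
    exact ⟨r2, h2.trans h1, hl, fun ζ hζ => (hst2 ζ hζ).trans
      (hst' ζ (WithTop.coe_lt_coe.2 hζ))⟩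

theorem coh_inf (M : ℕ) : {m : ℕ | M < (Nat.unpair m).1}.Infinite := by
  refine Set.infinite_of_injective_forall_mem (f := fun k => Nat.pair (M + 1 + k) 0) ?_ ?_
  · intro k k' h
    have := congrArg (fun a => (Nat.unpair a).1) h
    simpa using this
  · intro k
    simp
    omega

/-- one step: all functions with index `α` -/
theorem coh_step (η : J) (D : Set J) (hD : η ∉ D) (n : ℕ) (G : List (Xs Q → ℕ → ℕ))
    (hG : ∀ g ∈ G, Dec Q D g) (r : Cnd Q) (hn : (r.1.st (η : WithTop J)).length ≤ n) :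
    ∃ r' ≤ r, (∀ ζ : J, ζ ∉ D → η < ζ → r'.1.st (ζ : WithTop J) = r.1.st (ζ : WithTop J)) ∧
      ∀ᶠ x in residual (Xs Q), x ∈ bp r' → ∀ g ∈ G, g x n < Ch η x n := by
  obtain ⟨r1, h1, hst1, M, hM⟩ := coh_decide D n G hG r
  obtain ⟨r2, h2, hl2, hst2⟩ := coh_long η n (n - (r1.1.st (η : WithTop J)).length) r1
    (by rw [hst1 η hD]; omega)
  obtain ⟨m, hm, r3, h3, hst3, hst3'⟩ := push_one r2 η _ (coh_inf M)
  refine ⟨r3, h3.trans (h2.trans h1), fun ζ hζ hηζ => ?_, ?_⟩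
  · rw [hst3' ζ (WithTop.coe_lt_coe.2 hηζ), hst2 ζ hηζ, hst1 ζ hζ]
  · filter_upwards [hM] with x hx1 hx g hg
    refine (hx1 (coh_bp_mono (h3.trans h2) hx) g hg).trans_lt ?_
    have h4 := (hx (η : WithTop J) (WithTop.coe_lt_top η)).1 n (by rw [hst3]; simp [hl2])
    have h5 : x (η : WithTop J) n = m := by
      rw [h4, hst3, List.getD_append_right _ _ _ _ hl2.le, hl2]
      simp
    show M < (Nat.unpair (x (η : WithTop J) n)).1
    rw [h5]
    exact hm

theorem coh_all {K : Type} [LinearOrder K] (e : K → J) (D : K → Set J) (he : StrictMono e)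
    (hD : ∀ a b, a ≤ b → e b ∉ D a) (G : K → List (Xs Q → ℕ → ℕ)) (n : ℕ) :
    ∀ A : List K, A.Pairwise (· < ·) → (∀ a ∈ A, ∀ g ∈ G a, Dec Q (D a) g) → ∀ r : Cnd Q,
      (∀ a ∈ A, (r.1.st ((e a : J) : WithTop J)).length ≤ n) → ∃ r' ≤ r,
        ∀ᶠ x in residual (Xs Q), x ∈ bp r' → ∀ a ∈ A, ∀ g ∈ G a, g x n < Ch (e a) x n
  | [], _, _, r, _ => ⟨r, le_rfl, Eventually.of_forall fun _ _ _ h => absurd h List.not_mem_nil⟩
  | a :: A, hA, hG, r, hn => by
    rw [List.pairwise_cons] at hA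
    obtain ⟨r1, h1, hst1, hx1⟩ := coh_step (e a) (D a) (hD a a le_rfl) n (G a)
      (hG a List.mem_cons_self) r (hn a List.mem_cons_self)
    obtain ⟨r2, h2, hx2⟩ := coh_all e D he hD G n A hA.2
      (fun b hb => hG b (List.mem_cons_of_mem _ hb)) r1 (fun b hb => by
        rw [hst1 _ (hD a b (hA.1 b hb).le) (he (hA.1 b hb))]
        exact hn b (List.mem_cons_of_mem _ hb))
    refine ⟨r2, h2.trans h1, ?_⟩
    filter_upwards [hx1, hx2] with x h3 h4 hx b hb
    rcases List.mem_cons.1 hb with rfl | hb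
    · exact h3 (coh_bp_mono h2 hx)
    · exact h4 hx b hb

end Coh

open Classical in
theorem coh (hTOP : S_TOP) : S_COH := by
  intro J _ _ Q K _ e D he hD L hL
  rw [eventually_countable_forall]
  intro N
  rw [eventually_countable_forall]
  intro par
  obtain ⟨_, _, _, _, _, _, htop⟩ := hTOP J Q
  refine htop _ fun p => ?_
  set G : K → List (Xs Q → ℕ → ℕ) := fun a => (L.filter fun t => t.1 = a).map Prod.snd with hGdef
  set A : List K := (L.map Prod.fst).toFinset.sort (· ≤ ·) with hAdef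
  have hmem : ∀ t ∈ L, t.1 ∈ A ∧ t.2 ∈ G t.1 := by
    intro t ht
    refine ⟨?_, ?_⟩
    · rw [hAdef, Finset.mem_sort, List.mem_toFinset]
      exact List.mem_map_of_mem ht
    · rw [hGdef]
      exact List.mem_map_of_mem (List.mem_filter.2 ⟨ht, by simp⟩)
  have hG : ∀ a, ∀ g ∈ G a, Dec Q (D a) g := by
    intro a g hg
    rw [hGdef] at hg
    obtain ⟨t, ht, rfl⟩ := List.mem_map.1 hg
    obtain ⟨ht1, ht2⟩ := List.mem_filter.1 ht
    have h3 : t.1 = a := by simpa using ht2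
    rw [← h3]
    exact hL t ht1
  obtain ⟨B, hB⟩ : ∃ B, ∀ a ∈ A, (p.1.st ((e a : J) : WithTop J)).length ≤ B :=
    ⟨(A.map fun a => (p.1.st ((e a : J) : WithTop J)).length).sum, fun a ha =>
      List.single_le_sum (fun _ _ => Nat.zero_le _) _ (List.mem_map_of_mem ha)⟩
  obtain ⟨r, hr, hx⟩ := coh_all e D he hD G (2 * (N + B) + par % 2) A
    (Finset.sortedLT_sort _).pairwise (fun a _ => hG a) p (fun a ha => by have := hB a ha; omega)
  refine ⟨r, hr, ?_⟩
  filter_upwards [hx] with x hx1 hxr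
  refine ⟨2 * (N + B) + par % 2, by omega, by omega, fun t ht => ?_⟩
  exact hx1 hxr t.1 (hmem t ht).1 t.2 (hmem t ht).2

end Pool.Agent.Helper75.BJ
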