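import Pool.Agent.Helper75.BJ.REP

/-!
# Fewer null sets than random reals do not cover `2 ^ ω`
-/

set_option autoImplicit false
set_option linter.unusedSectionVars false

namespace Pool.Agent.Helper75.BJ

open Cardinal MeasureTheory Set Filter Topology TopologicalSpace
open Pool.Agent.TH773.PSet Pool.Agent.R593.Rnd Pool.Agent.R592.Ent
open scoped ENNReal

namespace CovN

section Sections

variable {X : Type} [MeasurableSpace X] {I : Type}

/-- the sections of a measurable subset of the product depend on countably many coordinates -/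
theorem exists_countable_sec {A : Set (X × (I × ℕ → Bool))} (hA : MeasurableSet A) :
    ∃ T : Set (I × ℕ), T.Countable ∧ ∀ x, Dep T (Prod.mk x ⁻¹' A) := by
  let M : MeasurableSpace (X × (I × ℕ → Bool)) :=
    { MeasurableSet' := fun A => ∃ T : Set (I × ℕ), T.Countable ∧ ∀ x, Dep T (Prod.mk x ⁻¹' A)
      measurableSet_empty := ⟨∅, countable_empty, fun x => dep_empty _⟩
      measurableSet_compl := fun A ⟨T, hT, hA⟩ => ⟨T, hT, fun x => (hA x).compl⟩
      measurableSet_iUnion := fun f hf => by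
        choose T hT hT' using hf
        refine ⟨⋃ n, T n, countable_iUnion hT, fun x => ?_⟩
        rw [preimage_iUnion]
        exact Dep.iUnion fun n => (hT' n x).mono (subset_iUnion T n) }
  have h1 : (Prod.instMeasurableSpace : MeasurableSpace (X × (I × ℕ → Bool))) ≤ M := by
    refine sup_le ?_ ?_
    · rintro _ ⟨B, hB, rfl⟩
      refine ⟨∅, countable_empty, fun x => ?_⟩
      by_cases hx : x ∈ B
      · have : Prod.mk x ⁻¹' (Prod.fst ⁻¹' B) = (univ : Set (I × ℕ → Bool)) := by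
          ext y
          simp [hx]
        rw [this]
        exact dep_univ _
      · have : Prod.mk x ⁻¹' (Prod.fst ⁻¹' B) = (∅ : Set (I × ℕ → Bool)) := by
          ext y
          simp [hx]
        rw [this]
        exact dep_empty _
    · rintro _ ⟨B, hB, rfl⟩
      obtain ⟨T, hT, hT'⟩ := exists_countable hB
      exact ⟨T, hT, fun x => hT'⟩
  exact h1 A hA

end Sections

section Calc

variable {Ω : Type} [MeasurableSpace Ω] {F : Filter Ω} [CountableInterFilter F]

theorem inCyl_PE {X : RName (Cf F)} {X' : ℕ → Set Ω} (hX' : ∀ n, MeasurableSet (X' n))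
    (h : ∀ n, meets (X n) = PE F (X' n)) (s : List Bool) : InCyl X s = PE F (cyl X' s) := by
  rw [cyl_eq]
  unfold InCyl
  simp only [← fall_PE]
  congr 1
  funext i
  congr 1
  funext _
  split_ifs
  · exact h i
  · rw [h i, fnot_PE (hX' i)]

end Calc

section Measure

variable {I : Type}

/-- the points where the `k`-th set of strings has small measure -/
def Gs {Ω : Type} (E : List Bool → Set Ω) (k : ℕ) : Set Ω := ⋂ F : Finset (List Bool),
    ⋂ _ : (2⁻¹ : ℝ≥0∞) ^ k < ∑ s ∈ F, (2⁻¹ : ℝ≥0∞) ^ s.length, (⋂ s : F, E s)ᶜ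

theorem measure_le {E : List Bool → Set (I × ℕ → Bool)} {TT : Set (I × ℕ)} {i : I}
    (hi' : ∀ t ∈ TT, t.1 ≠ i) (hdep : ∀ s, Dep TT (E s)) (k : ℕ) :
    coinProduct I (Gs E k ∩ ⋃ s : List Bool, E s ∩ cyl (rr i) s) ≤ (2⁻¹ : ℝ≥0∞) ^ k := by
  classical
  have hE : ∀ s, MeasurableSet (E s) := fun s => (hdep s).meas
  have hGd : Dep TT (Gs E k) := Dep.iInter fun F => Dep.iInter fun _ =>
    (Dep.iInter fun s : F => hdep s.1).compl
  have hdisj : Disjoint TT {t : I × ℕ | t.1 = i} :=
    Set.disjoint_left.2 fun t h1 h2 => hi' t h1 h2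
  have e1 : Gs E k ∩ (⋃ s : List Bool, E s ∩ cyl (rr i) s) =
      ⋃ s : List Bool, (Gs E k ∩ E s) ∩ cyl (rr i) s := by
    rw [inter_iUnion]
    refine iUnion_congr fun s => ?_
    rw [inter_assoc]
  rw [e1]
  refine (measure_iUnion_le _).trans ?_
  have e2 : ∀ s, coinProduct I ((Gs E k ∩ E s) ∩ cyl (rr i) s) =
      ∫⁻ x in Gs E k, (E s).indicator (fun _ => (2⁻¹ : ℝ≥0∞) ^ s.length) x ∂(coinProduct I) := by
    intro s
    rw [dep_indep hdisj (hGd.inter (hdep s)) (dep_cyl (dep_rr i) s), measure_cyl_rr,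
      lintegral_indicator (hE s), setLIntegral_const, Measure.restrict_apply (hE s),
      mul_comm, inter_comm]
  simp only [e2]
  rw [← lintegral_tsum fun s => (measurable_const.indicator (hE s)).aemeasurable]
  calc ∫⁻ x in Gs E k, ∑' s, (E s).indicator (fun _ => (2⁻¹ : ℝ≥0∞) ^ s.length) x
        ∂(coinProduct I) ≤ ∫⁻ _ in Gs E k, (2⁻¹ : ℝ≥0∞) ^ k ∂(coinProduct I) := by
        refine setLIntegral_mono' hGd.meas fun x hx => ?_
        rw [ENNReal.tsum_eq_iSup_sum]
        refine iSup_le fun F => ?_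
        have e3 : ∑ s ∈ F, (E s).indicator (fun _ => (2⁻¹ : ℝ≥0∞) ^ s.length) x =
            ∑ s ∈ F.filter (fun s => x ∈ E s), (2⁻¹ : ℝ≥0∞) ^ s.length := by
          rw [Finset.sum_filter]
          refine Finset.sum_congr rfl fun s _ => ?_
          by_cases h : x ∈ E s <;> simp [h]
        rw [e3]
        by_contra hlt
        rw [not_le] at hlt
        have h8 := mem_iInter₂.1 hx _ hlt
        apply h8
        refine mem_iInter.2 fun s => ?_
        exact (Finset.mem_filter.1 s.2).2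
    _ = (2⁻¹ : ℝ≥0∞) ^ k * coinProduct I (Gs E k) := by rw [setLIntegral_const]
    _ ≤ (2⁻¹ : ℝ≥0∞) ^ k * 1 := by gcongr; exact prob_le_one
    _ = _ := mul_one _

theorem measure_zero {E : ℕ → List Bool → Set (I × ℕ → Bool)} {TT : Set (I × ℕ)} {i : I}
    (hi' : ∀ t ∈ TT, t.1 ≠ i) (hdep : ∀ k s, Dep TT (E k s)) :
    ∀ᵐ y ∂(coinProduct I), ¬ ∀ k, y ∈ Gs (E k) k ∧ y ∈ ⋃ s : List Bool, E k s ∩ cyl (rr i) s := by
  rw [ae_iff]
  simp only [not_not]
  refine le_antisymm ?_ bot_le
  refine ge_of_tendsto' (ENNReal.tendsto_pow_atTop_nhds_zero_of_lt_one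
    (r := (2⁻¹ : ℝ≥0∞)) (ENNReal.inv_lt_one.2 (by norm_num))) fun k => ?_
  refine le_trans (measure_mono ?_) (measure_le hi' (hdep k) k)
  intro y hy
  exact hy k

end Measure

end CovN

open CovN in
theorem cov (hccc : S_CCC) : S_COV := by
  classical
  intro X _ _ _ _ hX I M hI hM p q _ hq
  have hc : Ccc (FF X (coinProduct I)) := hccc X (I × ℕ → Bool) (coinProduct I) hX
  obtain ⟨r, _, C, hC1, hC2⟩ := mem_fex.1 hq q le_rfl
  choose E hE hCE using fun y k s => exists_PE hc (C y k s)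
  choose T hT hT' using fun y k s => exists_countable_sec (hE y k s)
  let TT : Set (I × ℕ) := ⋃ a : M × ℕ × List Bool, T a.1 a.2.1 a.2.2
  obtain ⟨i, hi⟩ : ∃ i, i ∉ Prod.fst '' TT := by
    by_contra hcon
    push Not at hcon
    have h1 : #I ≤ #(Prod.fst '' TT) := by
      rw [eq_univ_of_forall hcon, mk_univ]
    have h2 : #TT ≤ #M * ℵ₀ * ℵ₀ := by
      refine (mk_iUnion_le_sum_mk).trans ?_
      refine (sum_le_sum (fun a : M × ℕ × List Bool => #(T a.1 a.2.1 a.2.2)) (fun _ => ℵ₀)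
        fun a => (hT _ _ _).le_aleph0).trans ?_
      rw [sum_const', mk_prod, lift_id, lift_id]
      refine mul_le_mul' (mul_le_mul' le_rfl ?_) le_rfl
      exact mk_le_aleph0
    have h3 : #M * ℵ₀ * ℵ₀ < #I := by
      refine mul_lt_of_lt hI.le (mul_lt_of_lt hI.le hM hI) hI
    exact absurd (h1.trans (mk_image_le.trans h2)) (not_le.2 h3)
  have hi' : ∀ t ∈ TT, t.1 ≠ i := fun t ht h => hi ⟨t, ht, h⟩
  have hdep : ∀ y k s x, Dep TT (Prod.mk x ⁻¹' E y k s) := fun y k s x =>
    (hT' y k s x).mono (subset_iUnion (fun a : M × ℕ × List Bool => T a.1 a.2.1 a.2.2) (y, k, s))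
  -- the random real
  let R : ℕ → Set (X × (I × ℕ → Bool)) := fun n => Prod.snd ⁻¹' rr i n
  have hRm : ∀ n, MeasurableSet (R n) := fun n => measurable_snd (measurable_rr i n)
  have hXm : ∀ n, meets (PE (FF X (coinProduct I)) (R n)) = PE (FF X (coinProduct I)) (R n) :=
    fun n => meets_PE (hRm n)
  obtain ⟨r', hr', y, hy⟩ := mem_fex.1 (hC2 fun n => PE (FF X (coinProduct I)) (R n)) r le_rfl
  have h1 : r' ∈ PE (FF X (coinProduct I)) (⋂ k : ℕ, ⋃ s : List Bool, E y k s ∩ cyl R s) := by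
    have h2 : InNull (fun n => PE (FF X (coinProduct I)) (R n)) (C y) =
        PE (FF X (coinProduct I)) (⋂ k : ℕ, ⋃ s : List Bool, E y k s ∩ cyl R s) := by
      unfold InNull
      have h3 : ∀ k s, fand (meets (C y k s)) (InCyl (fun n => PE (FF X (coinProduct I)) (R n)) s) =
          PE (FF X (coinProduct I)) (E y k s ∩ cyl R s) := by
        intro k s
        rw [hCE, inCyl_PE hRm hXm, fand_PE]
      simp only [h3]
      rw [← fall_PE]
      congr 1
      funext k
      exact fex_PE fun s => (hE y k s).inter (measurable_cyl hRm s)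
    rw [← h2]
    exact hy
  have h4 : r' ∈ PE (FF X (coinProduct I)) (⋂ k, Gs (E y k) k) := by
    have h5 : NullCode (C y) = PE (FF X (coinProduct I)) (⋂ k, Gs (E y k) k) := by
      unfold NullCode
      simp only [hCE, fall_PE]
      rw [← fall_PE]
      congr 1
      funext k
      simp only [Gs, ← fall_PE]
      congr 1
      funext F
      congr 1
      funext _
      rw [fall_PE, fnot_PE (MeasurableSet.iInter fun s : F => hE y k s.1)]
    rw [← h5]
    have h6 : r ∈ NullCode (C y) := hC1 y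
    rw [h5] at h6 ⊢
    exact down_PE _ _ h6 _ hr'
  apply r'.2.2
  rw [mem_FF]
  have h8 : ∀ᶠ x in residual X, ∀ᵐ z ∂(coinProduct I), (x, z) ∈ r'.1 →
      (x, z) ∈ (⋂ k, Gs (E y k) k) := eventually_FF.1 (mem_PE.1 h4)
  have h9 : ∀ᶠ x in residual X, ∀ᵐ z ∂(coinProduct I), (x, z) ∈ r'.1 →
      (x, z) ∈ ⋂ k : ℕ, ⋃ s : List Bool, E y k s ∩ cyl R s := eventually_FF.1 (mem_PE.1 h1)
  filter_upwards [h8, h9] with x hx8 hx9
  have h10 := measure_zero (E := fun k s => Prod.mk x ⁻¹' E y k s) hi' fun k s => hdep y k s x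
  filter_upwards [hx8, hx9, h10] with z hz8 hz9 hz10 hzr
  apply hz10
  intro k
  constructor
  · have h11 := mem_iInter.1 (hz8 hzr) k
    simp only [Gs, mem_iInter, mem_compl_iff, mem_preimage] at h11 ⊢
    exact h11
  · have h11 := mem_iInter.1 (hz9 hzr) k
    obtain ⟨s, hs⟩ := mem_iUnion.1 h11
    exact mem_iUnion.2 ⟨s, hs.1, hs.2⟩

end Pool.Agent.Helper75.BJ
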