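import Mathlib
import Pool.Agent.Helper75.BJ.Base
import Pool.Graph.R_seed8.Y575.MA.Dom

/-!
# DEC: countable supports of measurable functions of the generic point
-/

set_option autoImplicit false
set_option linter.unusedSectionVars false

namespace Pool.Agent.Helper75.BJ

open Cardinal MeasureTheory Set Filter Topology TopologicalSpace
open Pool.Agent.Helper669.Iter
open Pool.Agent.Y575.MA (QT Cond HR HR_eq amalD addPr addPr_mem addPr_le addPr_pr_self Compat resP
  resP_le resP_mem good exists_antichain countable_supp top_notMem_supp below_of_supp)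

/-- densely many conditions decide a measurable value -/
theorem dec_dense (hTOP : S_TOP) {J : Type} [LinearOrder J] [WellFoundedLT J] {Q : J → J → Prop}
    {g : Xs Q → ℕ → ℕ} (hg : Mf g) (n : ℕ) (p : Cnd Q) :
    ∃ q ≤ p, q ∈ {a : Cnd Q | ∃ m, ∀ᶠ x in residual (Xs Q), x ∈ bp a → g x n = m} := by
  obtain ⟨hbasis, hBaire, _, hne, hmono, hcomp, _⟩ := hTOP J Q
  have := hBaire
  choose U hUo hU using fun m : ℕ => (hg n m).residualEq_isOpen
  have h1 : ∀ᶠ x in residual (Xs Q), ∀ m, (g x n = m ↔ x ∈ U m) := by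
    rw [eventually_countable_forall]
    intro m
    filter_upwards [hU m] with x hx
    exact iff_of_eq hx
  have hpo : IsOpen (bp p : Set (Xs Q)) := hbasis.isOpen ⟨p, rfl⟩
  obtain ⟨x, hx1, hx2⟩ := (dense_of_mem_residual h1).inter_open_nonempty _ hpo (hne p)
  have hx3 : x ∈ U (g x n) := (hx2 (g x n)).1 rfl
  obtain ⟨_, ⟨r, rfl⟩, hxr, hrU⟩ := hbasis.exists_subset_of_mem_open hx3 (hUo (g x n))
  obtain ⟨q, hq1, hq2, hxq⟩ := hcomp r p x hxr hx1
  refine ⟨q, hq2, g x n, ?_⟩
  filter_upwards [h1] with y hy hyq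
  exact (hy _).2 (hrU (hmono q r hq1 hyq))

theorem dec (hTOP : S_TOP) : S_DEC := by
  classical
  intro J _ _ Q hQlt g hg
  have hT := hTOP J Q
  obtain ⟨hbasis, hBaire, _, hne, hmono, hcomp, hloc⟩ := hT
  have hAn : ∀ n, ∃ A ⊆ {a : Cnd Q | ∃ m, ∀ᶠ x in residual (Xs Q), x ∈ bp a → g x n = m},
      A.Countable ∧ ∀ p, ∃ a ∈ A, Compat a p := fun n =>
    exists_antichain _ fun p => dec_dense hTOP hg n p
  choose A hAD hAc hApre using hAn
  refine ⟨⋃ n, ⋃ a ∈ A n, {j : J | (j : WithTop J) ∈ supp a.1},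
    Set.countable_iUnion fun n => (hAc n).biUnion fun a _ => countable_supp a, ?_, ?_⟩
  · intro D hDcl hSD n r
    obtain ⟨a, ha, r0, hr0a, hr0r⟩ := hApre n r
    have hsupp : supp a.1 ⊆ (fun j : J => (j : WithTop J)) '' D := by
      intro η hη
      induction η using WithTop.recTopCoe with
      | top => exact absurd hη (top_notMem_supp a)
      | coe j => exact ⟨j, hSD (Set.mem_iUnion.2 ⟨n, Set.mem_biUnion ha hη⟩), rfl⟩
    obtain ⟨r1, hr1, h1a, h1r, h1st⟩ := amalD (Q := QT Q)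
      (D := (fun j : J => (j : WithTop J)) '' D) (by
        rintro _ ⟨x, hx, rfl⟩ η ⟨c, d, rfl, h2, h3⟩
        have h4 : x = d := WithTop.coe_injective h2
        subst h4
        exact ⟨c, hDcl x hx c h3, rfl⟩) a.2 hsupp r.2 r0.2 hr0a hr0r
    have h1a' : (⟨r1, hr1⟩ : Cond Q) ≤ a := h1a
    have h1r' : (⟨r1, hr1⟩ : Cond Q) ≤ r := h1r
    obtain ⟨m, hm⟩ := hAD n ha
    refine ⟨⟨r1, hr1⟩, h1r', fun ζ hζ => h1st _ ?_, m, ?_⟩
    · rintro ⟨j, hj, h⟩
      exact hζ (WithTop.coe_injective h ▸ hj)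
    · filter_upwards [hm] with x hx hxr
      exact hx (hmono _ _ h1a' hxr)
  · intro b hb
    have hsupp : ∀ n, ∀ a ∈ A n, supp a.1 ⊆ {η | QT Q η b} := by
      intro n a ha η hη
      induction η using WithTop.recTopCoe with
      | top => exact absurd hη (top_notMem_supp a)
      | coe j => exact ⟨j, b, rfl, rfl, hb j (Set.mem_iUnion.2 ⟨n, Set.mem_biUnion ha hη⟩)⟩
    have hbelow : ∀ n, ∀ a ∈ A n, Below a.1 (b : WithTop J) := fun n a ha =>
      below_of_supp hQlt (hsupp n a ha)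
    have hval : ∀ n, ∀ a : Cnd Q, ∃ m, a ∈ A n →
        ∀ᶠ x in residual (Xs Q), x ∈ bp a → g x n = m := by
      intro n a
      by_cases ha : a ∈ A n
      · obtain ⟨m, hm⟩ := hAD n ha
        exact ⟨m, fun _ => hm⟩
      · exact ⟨0, fun h => absurd h ha⟩
    choose v hv using hval
    let B : ℕ → ℕ → Set (Cnd Q) := fun n m => {a | a ∈ A n ∧ v n a ≤ m}
    let R : Pr (WithTop J) := fun n m => ⋃ q ∈ Subtype.val '' (B n m), bs q (b : WithTop J)
    have hR : R ∈ HR (QT Q) (b : WithTop J) := by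
      rw [HR_eq]
      refine ⟨fun n m => ⟨Subtype.val '' (B n m), ?_, ?_, ?_, rfl⟩, fun n q hq => ?_⟩
      · rintro _ ⟨a, ha, rfl⟩
        exact ⟨a.2.1, hbelow n a ha.1⟩
      · exact ((hAc n).mono fun a ha => ha.1).image _
      · rintro _ ⟨a, ha, rfl⟩
        exact hsupp n a ha.1
      · obtain ⟨a, ha, s, hsa, hsq⟩ := hApre n ⟨q, hq.1, hq.2.mono le_top⟩
        have h1 : resP s b ≤ a := resP_le hsa (hbelow n a ha)
        have h2 : (resP s b).1 ≤ q := resP_le (q := ⟨q, hq.1, hq.2.mono le_top⟩) hsq hq.2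
        refine ⟨(resP s b).1, resP_mem s b, h2, v n a, fun m hm => ?_⟩
        have h3 : bs (resP s (b : WithTop J)).1 (b : WithTop J) ⊆ bs a.1 (b : WithTop J) :=
          bs_le h1 _
        exact h3.trans (Set.subset_biUnion_of_mem (u := fun q => bs q (b : WithTop J))
          ⟨a, ⟨ha, hm⟩, rfl⟩)
    have hbtop : (b : WithTop J) < ⊤ := WithTop.coe_lt_top b
    refine hloc _ fun p => ?_
    let p' : Cnd Q := ⟨addPr p.1 b R, addPr_mem p.2 hbtop hR⟩
    have hp'p : p' ≤ p := addPr_le p.1 b R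
    refine ⟨p', hp'p, ?_⟩
    have hall : ∀ᶠ x in residual (Xs Q), ∀ n, ∀ a ∈ A n, x ∈ bp a → g x n = v n a := by
      rw [eventually_countable_forall]
      intro n
      exact (eventually_countable_ball (hAc n)).2 fun a ha => hv n a ha
    filter_upwards [hall] with x hx hxp
    filter_upwards [eventually_ge_atTop ((p'.1.st (b : WithTop J)).length)] with n hn
    have h1 := (hxp (b : WithTop J) hbtop).2 R (addPr_pr_self p.1 b R) n hn
    obtain ⟨_, ⟨a, ha, rfl⟩, hxa⟩ := Set.mem_iUnion₂.1 h1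
    have hxa' : x ∈ bp a := by
      show x ∈ bs a.1 (⊤ : WithTop J)
      rwa [bs_below (hbelow n a ha.1) le_top]
    rw [hx n a ha.1 hxa']
    exact ha.2

end Pool.Agent.Helper75.BJ
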