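import Pool.Agent.Helper75.BJ.Base
import Pool.Graph.R_seed8.R592.Hd.Ground

/-!
# GRD: the meaning of the sentence `Model` over the trivial forcing
-/

set_option autoImplicit false
set_option linter.unusedSectionVars false

namespace Pool.Agent.Helper75.BJ

open Cardinal MeasureTheory Set Filter Topology TopologicalSpace
open Pool.Agent.TH773.PSet Pool.Agent.R593.Rnd Pool.Agent.R592.Ent
open scoped ENNReal

namespace GRDaux

lemma exists_type (κ l : Cardinal.{0}) : (∃ Y : Type, κ ≤ #Y ∧ #Y < l) ↔ κ < l :=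
  ⟨fun ⟨_, h1, h2⟩ => h1.trans_lt h2, fun h => ⟨κ.out, by rw [mk_out], by rwa [mk_out]⟩⟩

lemma isIdeal_fin : IsIdeal Fin where
  fin := fun _ h => h
  sub := fun _ hs _ h => hs.subset h
  union := fun _ hs _ ht => hs.union ht
  proper := fun h => Set.infinite_univ h

lemma bJ_iff {J : Set (Set ℕ)} (hJ : IsIdeal J) (Y : Type) :
    (∃ D : Y → ℕ → ℕ, ¬ ∃ g : ℕ → ℕ, ∀ y, {n | D y n > g n} ∈ J) ↔ bJ J ≤ #Y := by
  have h := Pool.Agent.R592.Hd.fam (T := ℕ → ℕ)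
    (fun A => ¬ ∃ g : ℕ → ℕ, ∀ f ∈ A, {n | f n > g n} ∈ J)
    (fun s t hst hs ⟨g, hg⟩ => hs ⟨g, fun x hx => hg x (hst hx)⟩)
    (fun h => h ⟨fun _ => 0, fun x hx => hx.elim⟩)
    (fun ⟨g, hg⟩ => by
      have h1 := hg (fun n => g n + 1) trivial
      have h2 : {n | (fun n => g n + 1) n > g n} = Set.univ := by
        ext n
        simp
      rw [h2] at h1
      exact hJ.proper h1) Y
  rw [bJ, ← h]
  refine exists_congr fun D => not_congr (exists_congr fun g => ?_)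
  exact (forall_mem_range (f := D) (p := fun f => {n | f n > g n} ∈ J)).symm

lemma dJ_iff {J : Set (Set ℕ)} (hJ : IsIdeal J) (Y : Type) :
    (∃ D : Y → ℕ → ℕ, ∀ f : ℕ → ℕ, ∃ y, {n | f n > D y n} ∈ J) ↔ dJ J ≤ #Y := by
  have h := Pool.Agent.R592.Hd.fam (T := ℕ → ℕ)
    (fun D => ∀ f : ℕ → ℕ, ∃ g ∈ D, {n | f n > g n} ∈ J)
    (fun s t hst hs f => by
      obtain ⟨g, hg, h⟩ := hs f
      exact ⟨g, hst hg, h⟩)
    (fun h => by
      obtain ⟨g, hg, -⟩ := h fun x => x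
      exact hg.elim)
    (fun f => ⟨f, trivial, by
      have h2 : {n | f n > f n} = (∅ : Set ℕ) := by
        ext n
        simp
      rw [h2]
      exact hJ.fin _ Set.finite_empty⟩) Y
  rw [dJ, ← h]
  refine exists_congr fun D => forall_congr' fun f => ?_
  exact (exists_range_iff (f := D) (p := fun g => {n | f n > g n} ∈ J)).symm

lemma fin_iff (f g : ℕ → ℕ) : (∃ N, ∀ n, N ≤ n → f n ≤ g n) ↔ {n | f n > g n} ∈ Fin := by
  constructor
  · rintro ⟨N, hN⟩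
    refine (Set.finite_lt_nat N).subset fun n hn => ?_
    by_contra h
    have h1 : N ≤ n := not_lt.1 h
    have h2 := hN n h1
    have h3 : f n > g n := hn
    omega
  · intro h
    obtain ⟨N, hN⟩ := (show {n | f n > g n}.Finite from h).bddAbove
    refine ⟨N + 1, fun n hn => ?_⟩
    by_contra hlt
    have h1 : n ≤ N := hN (show f n > g n from not_le.1 hlt)
    omega

/-- the ideal of a base -/
def Jof {Z : Type} (E : Z → RName Unit) : Set (Set ℕ) := {s | ∃ z, s ⊆ {n | () ∈ E z n}}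

lemma unit_unctb {Y : Type} {p : Unit} : p ∈ Unctb Unit Y ↔ ℵ₁ ≤ #Y := by
  rw [← succ_aleph0, Order.succ_le_iff, Unctb, mem_fand, unit_fex, unit_fnot, unit_fex]
  constructor
  · rintro ⟨⟨y, -⟩, h⟩
    by_contra hle
    rw [not_lt, mk_le_aleph0_iff] at hle
    have : Nonempty Y := ⟨y⟩
    obtain ⟨f, hf⟩ := exists_surjective_nat Y
    refine h ⟨fun n y => {_p | f n = y}, unit_isFun.2 ⟨f, fun _ _ => Iff.rfl⟩, fun y => ?_⟩
    obtain ⟨n, hn⟩ := hf y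
    exact unit_fex.2 ⟨n, unit_meets.2 hn⟩
  · intro h
    have hne : Nonempty Y := by
      rw [← mk_ne_zero_iff]
      exact (aleph0_pos.trans h).ne'
    refine ⟨⟨hne.some, trivial⟩, ?_⟩
    rintro ⟨R, h1, h2⟩
    obtain ⟨f, hf⟩ := unit_isFun.1 h1
    have h3 : Function.Surjective f := by
      intro y
      obtain ⟨x, hx⟩ := unit_fex.1 (h2 y)
      exact ⟨x, (hf x y).1 (unit_meets.1 hx)⟩
    have h4 := mk_le_of_surjective h3
    rw [mk_nat] at h4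
    exact absurd h4 (not_le.2 h)

lemma unit_bddFin {Y : Type} {p : Unit} : p ∈ BddFin Unit Y ↔ #Y < bJ Fin := by
  rw [← not_le, ← bJ_iff isIdeal_fin]
  simp only [BddFin, mem_fall, unit_fimp, unit_isFun, unit_fex, mem_fand]
  constructor
  · rintro h ⟨D, hD⟩
    obtain ⟨g, ⟨g', hg'⟩, hg⟩ := h (fun y n a => {_p | D y n = a}) fun y => ⟨D y, fun _ _ => Iff.rfl⟩
    refine hD ⟨g', fun y => (fin_iff _ _).1 ?_⟩
    exact (unit_evLe (f' := D y) (g' := g') (fun _ _ => Iff.rfl) hg').1 (hg y)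
  · intro h D hD
    choose D' hD' using hD
    push Not at h
    obtain ⟨g, hg⟩ := h D'
    refine ⟨fun n a => {_p | g n = a}, ⟨g, fun _ _ => Iff.rfl⟩, fun y => ?_⟩
    exact (unit_evLe (f' := D' y) (g' := g) (hD' y) (fun _ _ => Iff.rfl)).2 ((fin_iff _ _).2 (hg y))

lemma unit_leJ {Z : Type} {E : Z → RName Unit} {f g : ℕ → ℕ → Set Unit} {f' g' : ℕ → ℕ} {p : Unit}
    (hf : ∀ n a, () ∈ f n a ↔ f' n = a) (hg : ∀ n a, () ∈ g n a ↔ g' n = a) :
    p ∈ LeJ E f g ↔ {n | f' n > g' n} ∈ Jof E := by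
  simp only [LeJ, unit_fex, mem_fall, unit_fimp, mem_fand, unit_meets, hf, hg]
  refine exists_congr fun z => ?_
  constructor
  · intro h n hn
    exact h n _ _ hn ⟨rfl, rfl⟩
  · rintro h n a b hab ⟨h1, h2⟩
    refine h (?_ : f' n > g' n)
    rw [h1, h2]
    exact hab

lemma unit_bddJ {Z : Type} {E : Z → RName Unit} (hE : IsIdeal (Jof E)) {Y : Type} {p : Unit} :
    p ∈ BddJ E Y ↔ #Y < bJ (Jof E) := by
  rw [← not_le, ← bJ_iff hE]
  simp only [BddJ, mem_fall, unit_fimp, unit_isFun, unit_fex, mem_fand]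
  constructor
  · rintro h ⟨D, hD⟩
    obtain ⟨g, ⟨g', hg'⟩, hg⟩ := h (fun y n a => {_p | D y n = a}) fun y => ⟨D y, fun _ _ => Iff.rfl⟩
    exact hD ⟨g', fun y => (unit_leJ (f' := D y) (g' := g') (fun _ _ => Iff.rfl) hg').1 (hg y)⟩
  · intro h D hD
    choose D' hD' using hD
    push Not at h
    obtain ⟨g, hg⟩ := h D'
    refine ⟨fun n a => {_p | g n = a}, ⟨g, fun _ _ => Iff.rfl⟩, fun y => ?_⟩
    exact (unit_leJ (f' := D' y) (g' := g) (hD' y) (fun _ _ => Iff.rfl)).2 (hg y)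

lemma unit_domJ {Z : Type} {E : Z → RName Unit} (hE : IsIdeal (Jof E)) {Y : Type} {p : Unit} :
    p ∈ DomJ E Y ↔ dJ (Jof E) ≤ #Y := by
  rw [← dJ_iff hE]
  simp only [DomJ, mem_fall, unit_fimp, unit_isFun, unit_fex, mem_fand]
  constructor
  · rintro ⟨D, hD, h⟩
    choose D' hD' using hD
    refine ⟨D', fun f => ?_⟩
    obtain ⟨y, hy⟩ := h (fun n a => {_p | f n = a}) ⟨f, fun _ _ => Iff.rfl⟩
    exact ⟨y, (unit_leJ (f' := f) (g' := D' y) (fun _ _ => Iff.rfl) (hD' y)).1 hy⟩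
  · rintro ⟨D, hD⟩
    refine ⟨fun y n a => {_p | D y n = a}, fun y => ⟨D y, fun _ _ => Iff.rfl⟩, ?_⟩
    rintro f ⟨f', hf'⟩
    obtain ⟨y, hy⟩ := hD f'
    exact ⟨y, (unit_leJ (f' := f') (g' := D y) hf' (fun _ _ => Iff.rfl)).2 hy⟩

lemma unit_domFin {Y : Type} {p : Unit} : p ∈ DominatingLe Unit Y ↔ dJ Fin ≤ #Y := by
  rw [← dJ_iff isIdeal_fin, unit_dominatingLe]
  refine exists_congr fun D => forall_congr' fun f => ?_
  constructor
  · rintro ⟨_, ⟨y, rfl⟩, h⟩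
    exact ⟨y, (fin_iff _ _).1 h⟩
  · rintro ⟨y, h⟩
    exact ⟨_, ⟨y, rfl⟩, (fin_iff _ _).2 h⟩

lemma unit_isBase {Z : Type} {E : Z → RName Unit} {p : Unit} :
    p ∈ IsBase E ↔ (∀ N : ℕ, ∃ z, ∀ n, n < N → () ∈ E z n) ∧
      (∀ z z', ∃ z'', (∀ n, () ∈ E z n → () ∈ E z'' n) ∧ (∀ n, () ∈ E z' n → () ∈ E z'' n)) ∧
      ∀ z, ∃ n, ¬ () ∈ E z n := by
  simp only [IsBase, mem_fall, unit_fex, mem_fand, unit_meets, unit_fnot, Pool.Agent.TH773.PSet.Sub,
    unit_fimp]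

lemma ideal_of_base {Z : Type} {E : Z → RName Unit} {p : Unit} (h : p ∈ IsBase E) :
    IsIdeal (Jof E) := by
  obtain ⟨h1, h2, h3⟩ := unit_isBase.1 h
  refine ⟨fun s hs => ?_, ?_, ?_, ?_⟩
  · obtain ⟨N, hN⟩ := hs.bddAbove
    obtain ⟨z, hz⟩ := h1 (N + 1)
    exact ⟨z, fun n hn => hz n (Nat.lt_succ_of_le (hN hn))⟩
  · rintro s ⟨z, hz⟩ t hts
    exact ⟨z, hts.trans hz⟩
  · rintro s ⟨z, hz⟩ t ⟨z', hz'⟩
    obtain ⟨z'', h4, h5⟩ := h2 z z'
    exact ⟨z'', Set.union_subset (fun n hn => h4 n (hz hn)) fun n hn => h5 n (hz' hn)⟩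
  · rintro ⟨z, hz⟩
    obtain ⟨n, hn⟩ := h3 z
    exact hn (hz trivial)

/-- the base given by an ideal -/
def EJ (J : Set (Set ℕ)) : {s : Set ℕ // s ∈ J} → RName Unit := fun z n => {_p | n ∈ z.1}

lemma base_EJ {J : Set (Set ℕ)} (hJ : IsIdeal J) (p : Unit) : p ∈ IsBase (EJ J) := by
  refine unit_isBase.2 ⟨fun N => ?_, ?_, ?_⟩
  · exact ⟨⟨{n | n < N}, hJ.fin _ (Set.finite_lt_nat N)⟩, fun n hn => hn⟩
  · rintro z z'
    exact ⟨⟨z.1 ∪ z'.1, hJ.union _ z.2 _ z'.2⟩, fun n hn => Or.inl hn, fun n hn => Or.inr hn⟩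
  · rintro z
    by_contra h
    push Not at h
    have h1 : z.1 = Set.univ := Set.eq_univ_of_forall h
    exact hJ.proper (h1 ▸ z.2)

lemma Jof_EJ {J : Set (Set ℕ)} (hJ : IsIdeal J) : Jof (EJ J) = J := by
  ext s
  constructor
  · rintro ⟨z, hz⟩
    exact hJ.sub _ z.2 _ hz
  · intro hs
    exact ⟨⟨s, hs⟩, fun n hn => hn⟩

end GRDaux

open GRDaux in
theorem grd : S_GRD := by
  intro p
  rw [Model, unit_fex]
  constructor
  · rintro ⟨Z, h⟩
    rw [unit_fex] at h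
    obtain ⟨E, h0, h1, h2, h3, h4, h5⟩ := h
    have hE := ideal_of_base h0
    simp only [unit_fex, mem_fand, unit_unctb, unit_bddFin, unit_bddJ hE, unit_domJ hE, unit_domFin,
      unit_covNLe, unit_fnot, not_le, not_lt, exists_type] at h1 h2 h3 h4 h5
    exact ⟨Jof E, hE, h1, h2, h3, h4, h5⟩
  · rintro ⟨J, hJ, h1, h2, h3, h4, h5⟩
    refine ⟨{s : Set ℕ // s ∈ J}, ?_⟩
    rw [unit_fex]
    have hE : IsIdeal (Jof (EJ J)) := by rwa [Jof_EJ hJ]
    refine ⟨EJ J, base_EJ hJ (), ?_⟩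
    simp only [unit_fex, mem_fand, unit_unctb, unit_bddFin, unit_bddJ hE, unit_domJ hE, unit_domFin,
      unit_covNLe, unit_fnot, not_le, not_lt, exists_type, Jof_EJ hJ]
    exact ⟨h1, h2, h3, h4, h5⟩

end Pool.Agent.Helper75.BJ
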