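import Pool.Agent.Helper75.BJ.Base
import Pool.Graph.R_seed8.Y575.MA.Main

/-!
# The module IDX: the index set of the iteration

The lexicographic product of the four initial ordinals; `Q x y` says that every coordinate of `x` is
smaller than the same coordinate of `y`.
-/

set_option autoImplicit false
set_option linter.unusedSectionVars false

namespace Pool.Agent.Helper75.BJ.IDX

open Cardinal Ordinal
open Pool.Agent.Y575.MA (exists_bound)

/-- the index set -/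
abbrev J4 (a b c d : Cardinal.{0}) : Type :=
  a.ord.ToType ×ₗ (b.ord.ToType ×ₗ (c.ord.ToType ×ₗ d.ord.ToType))

variable {a b c d : Cardinal.{0}}

/-- the four coordinates -/
def c0 (x : J4 a b c d) : a.ord.ToType := (ofLex x).1
def c1 (x : J4 a b c d) : b.ord.ToType := (ofLex (ofLex x).2).1
def c2 (x : J4 a b c d) : c.ord.ToType := (ofLex (ofLex (ofLex x).2).2).1
def c3 (x : J4 a b c d) : d.ord.ToType := (ofLex (ofLex (ofLex x).2).2).2

/-- the point with given coordinates -/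
def mk4 (x : a.ord.ToType) (y : b.ord.ToType) (z : c.ord.ToType) (w : d.ord.ToType) :
    J4 a b c d := toLex (x, toLex (y, toLex (z, w)))

/-- the relation -/
def Q4 (x y : J4 a b c d) : Prop := c0 x < c0 y ∧ c1 x < c1 y ∧ c2 x < c2 y ∧ c3 x < c3 y

theorem Q4_lt {x y : J4 a b c d} (h : Q4 x y) : x < y := by
  rw [Prod.Lex.lt_iff]
  exact Or.inl h.1

theorem mk_J4 (ha : ℵ₀ ≤ a) (hb : a < b) (hc : b < c) (hd : c < d) : #(J4 a b c d) = d := by
  have e : J4 a b c d ≃ a.ord.ToType × (b.ord.ToType × (c.ord.ToType × d.ord.ToType)) :=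
    ofLex.trans (Equiv.prodCongr (Equiv.refl _)
      (ofLex.trans (Equiv.prodCongr (Equiv.refl _) ofLex)))
  rw [Cardinal.mk_congr e]
  simp only [mk_prod, Cardinal.lift_id, mk_toType, card_ord]
  have hb' : ℵ₀ ≤ b := ha.trans hb.le
  have hc' : ℵ₀ ≤ c := hb'.trans hc.le
  have hd' : ℵ₀ ≤ d := hc'.trans hd.le
  have h0 : ∀ x y : Cardinal.{0}, ℵ₀ ≤ x → ℵ₀ ≤ y → x ≤ y → x * y = y := fun x y hx hy hxy => by
    rw [mul_eq_max hx hy, max_eq_right hxy]
  rw [h0 c d hc' hd' hd.le, h0 b d hb' hd' (hc.le.trans hd.le),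
    h0 a d ha hd' (hb.le.trans (hc.le.trans hd.le))]

theorem bound4 (ha : a.IsRegular) (hb : b.IsRegular) (hc : c.IsRegular) (hd : d.IsRegular)
    (hab : a < b) (hbc : b < c) (hcd : c < d) (S : Set (J4 a b c d)) (hS : #S < a) :
    ∃ y, ∀ s ∈ S, Q4 s y := by
  obtain ⟨y0, h0⟩ := exists_bound ha (c0 '' S) (mk_image_le.trans_lt hS)
  obtain ⟨y1, h1⟩ := exists_bound hb (c1 '' S) (mk_image_le.trans_lt (hS.trans hab))
  obtain ⟨y2, h2⟩ := exists_bound hc (c2 '' S) (mk_image_le.trans_lt (hS.trans (hab.trans hbc)))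
  obtain ⟨y3, h3⟩ := exists_bound hd (c3 '' S)
    (mk_image_le.trans_lt (hS.trans (hab.trans (hbc.trans hcd))))
  exact ⟨mk4 y0 y1 y2 y3, fun s hs => ⟨h0 _ ⟨s, hs, rfl⟩, h1 _ ⟨s, hs, rfl⟩, h2 _ ⟨s, hs, rfl⟩,
    h3 _ ⟨s, hs, rfl⟩⟩⟩

theorem point (ha : a.IsRegular) : Nonempty a.ord.ToType := by
  obtain ⟨b, _⟩ := exists_bound ha ∅ (by
    rw [mk_eq_zero]; exact aleph0_pos.trans_le ha.aleph0_le)
  exact ⟨b⟩

end Pool.Agent.Helper75.BJ.IDX

namespace Pool.Agent.Helper75.BJ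

open Cardinal Ordinal IDX

/-- **IDX** -/
theorem idx : S_IDX := by
  intro a b c d ha hb hc hd h0 hab hbc hcd
  obtain ⟨x0⟩ := point ha
  obtain ⟨x1⟩ := point hb
  obtain ⟨x2⟩ := point hc
  obtain ⟨x3⟩ := point hd
  refine ⟨J4 a b c d, inferInstance, inferInstance, Q4, fun _ _ h => Q4_lt h,
    mk_J4 h0.le hab hbc hcd, bound4 ha hb hc hd hab hbc hcd, ?_, ?_, ?_, ?_⟩
  · refine ⟨c0, fun t => mk4 t x1 x2 x3, fun s t h => ?_, fun _ => rfl, fun _ _ h => h.1⟩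
    rw [Prod.Lex.lt_iff]
    exact Or.inl h
  · refine ⟨c1, fun t => mk4 x0 t x2 x3, fun s t h => ?_, fun _ => rfl, fun _ _ h => h.2.1⟩
    rw [Prod.Lex.lt_iff]
    refine Or.inr ⟨rfl, ?_⟩
    show toLex (s, _) < toLex (t, _)
    rw [Prod.Lex.lt_iff]
    exact Or.inl h
  · refine ⟨c2, fun t => mk4 x0 x1 t x3, fun s t h => ?_, fun _ => rfl, fun _ _ h => h.2.2.1⟩
    rw [Prod.Lex.lt_iff]
    refine Or.inr ⟨rfl, ?_⟩
    show toLex (x1, toLex (s, x3)) < toLex (x1, toLex (t, x3))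
    rw [Prod.Lex.lt_iff]
    refine Or.inr ⟨rfl, ?_⟩
    show toLex (s, _) < toLex (t, _)
    rw [Prod.Lex.lt_iff]
    exact Or.inl h
  · refine ⟨c3, fun t => mk4 x0 x1 x2 t, fun s t h => ?_, fun _ => rfl, fun _ _ h => h.2.2.2⟩
    rw [Prod.Lex.lt_iff]
    refine Or.inr ⟨rfl, ?_⟩
    show toLex (x1, toLex (x2, s)) < toLex (x1, toLex (x2, t))
    rw [Prod.Lex.lt_iff]
    refine Or.inr ⟨rfl, ?_⟩
    show toLex (x2, s) < toLex (x2, t)
    rw [Prod.Lex.lt_iff]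
    exact Or.inr ⟨rfl, h⟩

end Pool.Agent.Helper75.BJ
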