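import Pool.Agent.Helper75.BJ.Base

/-!
# The covering number of the null ideal of the real line
-/

set_option autoImplicit false
set_option linter.unusedSectionVars false

namespace Pool.Agent.Helper75.BJ

open Cardinal MeasureTheory Set Filter Topology
open Pool.Agent.R592.Ent
open Pool.Agent.R592 (bin)
open scoped ENNReal

/-- `cov(𝒩)`: the least number of Lebesgue null sets of reals whose union is the real line -/
noncomputable def covR : Cardinal.{0} :=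
  sInf {κ | ∃ 𝒩 : Set (Set ℝ), (∀ N ∈ 𝒩, volume N = 0) ∧ ⋃₀ 𝒩 = Set.univ ∧ #𝒩 = κ}

theorem covN_le_covR : covN ≤ covR := by
  have hne : {κ : Cardinal.{0} | ∃ 𝒩 : Set (Set ℝ), (∀ N ∈ 𝒩, volume N = 0) ∧
      ⋃₀ 𝒩 = Set.univ ∧ #𝒩 = κ}.Nonempty := by
    refine ⟨_, range (fun x : ℝ => {x}), ?_, ?_, rfl⟩
    · rintro _ ⟨x, rfl⟩
      simp
    · refine eq_univ_of_forall fun x => ⟨{x}, ⟨x, rfl⟩, rfl⟩
  obtain ⟨𝒩, h1, h2, h3⟩ := csInf_mem hne
  have h4 : covN ≤ #((fun N : Set ℝ => bin ⁻¹' N) '' 𝒩) := by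
    refine csInf_le' ⟨_, ?_, ?_, rfl⟩
    · rintro _ ⟨N, hN, rfl⟩
      exact isNull_preimage (h1 N hN)
    · refine eq_univ_of_forall fun x => ?_
      have h5 : bin x ∈ ⋃₀ 𝒩 := by rw [h2]; trivial
      obtain ⟨N, hN, hx⟩ := h5
      exact ⟨_, ⟨N, hN, rfl⟩, hx⟩
  exact (h4.trans mk_image_le).trans_eq h3

theorem volume_image {N : Set (ℕ → Bool)} (h : IsNull N) : volume (bin '' N) = 0 := by
  refine le_antisymm (ENNReal.le_of_forall_pos_le_add fun ε hε _ => ?_) bot_le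
  obtain ⟨D, hD, hD'⟩ := h ε (by exact_mod_cast hε.ne')
  have h1 : bin '' N ⊆ ⋃ s : D, Icc (val s.1) (val s.1 + (2⁻¹ : ℝ) ^ s.1.length) := by
    rintro _ ⟨x, hx, rfl⟩
    obtain ⟨s, hs, hxs⟩ := hD' x hx
    exact mem_iUnion.2 ⟨⟨s, hs⟩, bin_mem s x hxs⟩
  refine (measure_mono h1).trans ((measure_iUnion_le _).trans ?_)
  have h2 : ∀ s : D, volume (Icc (val s.1) (val s.1 + (2⁻¹ : ℝ) ^ s.1.length)) =
      (2⁻¹ : ℝ≥0∞) ^ s.1.length := by
    intro s
    rw [Real.volume_Icc]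
    have : val s.1 + (2⁻¹ : ℝ) ^ s.1.length - val s.1 = (2⁻¹ : ℝ) ^ s.1.length := by ring
    rw [this, ENNReal.ofReal_pow (by norm_num), ENNReal.ofReal_inv_of_pos (by norm_num)]
    simp
  simp only [h2]
  rw [zero_add]
  exact hD

theorem exists_bin {x : ℝ} (hx : x ∈ Ico (0 : ℝ) 1) : ∃ y : ℕ → Bool, bin y = x := by
  refine ⟨fun j => Real.digits x 2 j = 1, ?_⟩
  unfold bin
  have h1 : (fun j => (if (decide (Real.digits x 2 j = 1)) = true then 1 else 0 : _root_.Fin 2)) =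
      Real.digits x 2 := by
    funext j
    have : ∀ d : _root_.Fin 2, (if (decide (d = 1)) = true then 1 else 0 : _root_.Fin 2) = d := by decide
    exact this _
  rw [h1]
  exact Real.ofDigits_digits (by norm_num) hx

theorem covR_le : covR ≤ max ℵ₀ covN := by
  have hne : {c : Cardinal.{0} | ∃ 𝒩 : Set (Set (ℕ → Bool)), (∀ N ∈ 𝒩, IsNull N) ∧
      ⋃₀ 𝒩 = Set.univ ∧ #𝒩 = c}.Nonempty := by
    refine ⟨_, range (fun x : ℕ → Bool => {x}), ?_, ?_, rfl⟩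
    · rintro _ ⟨x, rfl⟩
      exact isNull_singleton x
    · refine eq_univ_of_forall fun x => ⟨{x}, ⟨x, rfl⟩, rfl⟩
  obtain ⟨𝒩, h1, h2, h3⟩ := csInf_mem hne
  let f : ℤ × 𝒩 → Set ℝ := fun t => (fun r : ℝ => (t.1 : ℝ) + r) '' (bin '' t.2.1)
  have h4 : covR ≤ #(range f) := by
    refine csInf_le' ⟨range f, ?_, ?_, rfl⟩
    · rintro _ ⟨t, rfl⟩
      show volume ((fun r : ℝ => (t.1 : ℝ) + r) '' (bin '' t.2.1)) = 0
      rw [Set.image_add_left, measure_preimage_add]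
      exact volume_image (h1 _ t.2.2)
    · refine eq_univ_of_forall fun x => ?_
      obtain ⟨y, hy⟩ := exists_bin (x := Int.fract x) ⟨Int.fract_nonneg x, Int.fract_lt_one x⟩
      have h5 : y ∈ ⋃₀ 𝒩 := by rw [h2]; trivial
      obtain ⟨N, hN, hyN⟩ := h5
      refine ⟨f (⌊x⌋, ⟨N, hN⟩), ⟨_, rfl⟩, Int.fract x, ⟨y, hyN, hy⟩, ?_⟩
      exact Int.floor_add_fract x
  refine h4.trans (mk_range_le.trans ?_)
  rw [mk_prod, lift_id, lift_id, h3]
  calc #ℤ * _ ≤ ℵ₀ * _ := mul_le_mul' mk_le_aleph0 le_rfl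
    _ ≤ max (max ℵ₀ covN) ℵ₀ := mul_le_max _ _
    _ = max ℵ₀ covN := by
      rw [max_comm, ← max_assoc, max_self]

theorem lt_covR_iff {c : Cardinal.{0}} (hc : ℵ₀ ≤ c) : c < covN ↔ c < covR := by
  constructor
  · intro h
    exact h.trans_le covN_le_covR
  · intro h
    rcases lt_max_iff.1 (h.trans_le covR_le) with h' | h'
    · exact absurd hc (not_le.2 h')
    · exact h'

end Pool.Agent.Helper75.BJ
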