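import Pool.Agent.Helper75.BJ.Base

/-!
# Module TOP (helper67): the space of the generic points
-/

set_option autoImplicit false
set_option linter.unusedSectionVars false

namespace Pool.Agent.Helper75.BJ

open Cardinal MeasureTheory Set Filter Topology TopologicalSpace
open Pool.Agent.Helper669.Iter
open Pool.Agent.Y575.MA (QT HR good exists_antichain cond_ccc)

namespace TopM

variable {J : Type} [LinearOrder J] [WellFoundedLT J] {Q : J → J → Prop}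

lemma bp_nonempty (r : Cnd Q) : (bp r).Nonempty := by
  obtain ⟨w, hw⟩ := bs_nonempty good r.2
  exact ⟨w, hw ⊤⟩

lemma bp_mono {r r' : Cnd Q} (h : r ≤ r') : bp r ⊆ bp r' := bs_le h ⊤

lemma bp_inter (r r' : Cnd Q) (w : Xs Q) (h : w ∈ bp r) (h' : w ∈ bp r') :
    ∃ q, q ≤ r ∧ q ≤ r' ∧ w ∈ bp q := by
  obtain ⟨q, hq, h1, h2, h3⟩ := inter_point good w ⊤ r.1 r'.1 r.2.1 r'.2.1 h h'
  rw [res_eq_self r.2.2] at h1
  rw [res_eq_self r'.2.2] at h2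
  exact ⟨⟨q, hq⟩, h1, h2, h3⟩

lemma basis (Q : J → J → Prop) : IsTopologicalBasis (range fun r : Cnd Q => bp r) where
  exists_subset_inter := by
    rintro _ ⟨r, rfl⟩ _ ⟨r', rfl⟩ x ⟨h, h'⟩
    obtain ⟨q, h1, h2, h3⟩ := bp_inter r r' x h h'
    exact ⟨_, ⟨q, rfl⟩, h3, subset_inter (bp_mono h1) (bp_mono h2)⟩
  sUnion_eq := by
    refine eq_univ_of_forall fun x => ?_
    refine ⟨bp (⟨one _, one_mem _ _⟩ : Cnd Q), ⟨_, rfl⟩, fun η _ => ?_⟩
    simp [one]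
  eq_generateFrom := rfl

lemma isOpen_bp (r : Cnd Q) : IsOpen (bp r) := (basis Q).isOpen ⟨r, rfl⟩

lemma exists_bp {U : Set (Xs Q)} (hU : IsOpen U) {x : Xs Q} (hx : x ∈ U) :
    ∃ r : Cnd Q, x ∈ bp r ∧ bp r ⊆ U := by
  obtain ⟨_, ⟨r, rfl⟩, h1, h2⟩ := (basis Q).exists_subset_of_mem_open hx hU
  exact ⟨r, h1, h2⟩

lemma step {U : Set (Xs Q)} (hU : IsOpen U) (hd : Dense U) (r : Cnd Q) (N : ℕ) :
    ∃ q ≤ r, bp q ⊆ U ∧ ∀ η ∈ supp r.1, N ≤ (q.1.st η).length := by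
  obtain ⟨w, hw1, hw2⟩ := hd.inter_open_nonempty _ (isOpen_bp r) (bp_nonempty r)
  obtain ⟨r', hr1, hr2⟩ := exists_bp hU hw2
  obtain ⟨q, h1, h2, h3⟩ := bp_inter r r' w hw1 hr1
  obtain ⟨q', hq', h4, h5⟩ := exists_long_all good q.2 N
  have h6 : (⟨q', hq'⟩ : Cnd Q) ≤ q := h4
  exact ⟨⟨q', hq'⟩, h6.trans h1, (bp_mono h6).trans ((bp_mono h2).trans hr2),
    fun η hη => h5 η (supp_mono h1 hη)⟩

lemma baire (Q : J → J → Prop) : BaireSpace (Xs Q) where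
  baire_property := by
    intro f ho hd
    rw [(basis Q).dense_iff]
    rintro _ ⟨r, rfl⟩ _
    choose! g hg1 hg2 hg3 using fun (n : ℕ) (r : Cnd Q) => step (ho n) (hd n) r n
    let s : ℕ → Cnd Q := fun n => Nat.rec r (fun n q => g n q) n
    obtain ⟨w, hw⟩ := exists_limit (fun n => (s n).1) (fun n => hg1 n (s n)) fun n => hg3 n (s n)
    refine ⟨w, hw ⊤ 0, mem_iInter.2 fun n => ?_⟩
    exact hg2 n (s n) (hw ⊤ (n + 1))

lemma occc (Q : J → J → Prop) : OCcc (Xs Q) := by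
  intro ι U ho hne hdis
  have h1 : ∀ i, ∃ r : Cnd Q, bp r ⊆ U i := by
    intro i
    obtain ⟨x, hx⟩ := hne i
    obtain ⟨r, _, h2⟩ := exists_bp (ho i) hx
    exact ⟨r, h2⟩
  choose f hf using h1
  by_contra hcon
  obtain ⟨i, i', hii, s, h2, h3⟩ := cond_ccc f hcon
  obtain ⟨w, hw⟩ := bp_nonempty s
  exact disjoint_left.1 (hdis i i' hii) (hf i (bp_mono h2 hw)) (hf i' (bp_mono h3 hw))

lemma resid (φ : Xs Q → Prop)
    (h : ∀ p : Cnd Q, ∃ p' ≤ p, ∀ᶠ x in residual (Xs Q), x ∈ bp p' → φ x) :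
    ∀ᶠ x in residual (Xs Q), φ x := by
  obtain ⟨A, hA, hAc, hAp⟩ := exists_antichain
    {p' : Cnd Q | ∀ᶠ x in residual (Xs Q), x ∈ bp p' → φ x} h
  have h1 : ∀ᶠ x in residual (Xs Q), ∀ a ∈ A, x ∈ bp a → φ x :=
    (eventually_countable_ball hAc).2 fun a ha => hA ha
  have h2 : ∀ᶠ x in residual (Xs Q), ∃ a ∈ A, x ∈ bp a := by
    have h3 : IsOpen (⋃ a ∈ A, bp a) := isOpen_biUnion fun a _ => isOpen_bp a
    have h4 : Dense (⋃ a ∈ A, bp a) := by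
      rw [(basis Q).dense_iff]
      rintro _ ⟨r, rfl⟩ _
      obtain ⟨a, ha, s, hs1, hs2⟩ := hAp r
      obtain ⟨w, hw⟩ := bp_nonempty s
      exact ⟨w, bp_mono hs2 hw, mem_biUnion ha (bp_mono hs1 hw)⟩
    filter_upwards [residual_of_dense_open h3 h4] with x hx
    simpa using hx
  filter_upwards [h1, h2] with x hx1 hx2
  obtain ⟨a, ha, hxa⟩ := hx2
  exact hx1 a ha hxa

end TopM

theorem top : S_TOP := by
  intro J _ _ Q
  exact ⟨TopM.basis Q, TopM.baire Q, TopM.occc Q, TopM.bp_nonempty, fun _ _ h => TopM.bp_mono h,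
    TopM.bp_inter, TopM.resid⟩

end Pool.Agent.Helper75.BJ
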