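import Pool.Agent.Helper75.BJ.Base
import Pool.Graph.R_seed8.Y575.MA.Main

/-!
# The module TOW: the tower given by a coordinate
-/

set_option autoImplicit false
set_option linter.unusedSectionVars false

namespace Pool.Agent.Helper75.BJ.TOW

open Cardinal Ordinal Set Topology TopologicalSpace MeasureTheory
open Pool.Agent.Helper669.Iter
open Pool.Agent.Y575.MA (exists_bound)

variable {J : Type} [LinearOrder J] [WellFoundedLT J] {Q : J → J → Prop}

open Classical in
/-- the condition with the stem `t` at `ζ` and without promises -/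
noncomputable def stc (Q : J → J → Prop) (ζ : J) (t : List ℕ) : Cnd Q :=
  ⟨{ st := fun η => if η = (ζ : WithTop J) then t else []
     pr := fun _ => ∅
     fin := by
       refine (Set.finite_singleton (ζ : WithTop J)).subset fun η hη => ?_
       by_contra h
       have h' : ¬ η = (ζ : WithTop J) := h
       simp [h'] at hη },
    fun _ R hR => absurd hR (Finset.notMem_empty R), fun η hη => by
      have h : ¬ η = (ζ : WithTop J) := by
        rintro rfl
        exact absurd hη (not_le.2 (WithTop.coe_lt_top ζ))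
      exact ⟨if_neg h, rfl⟩⟩

theorem mem_bp_stc (ζ : J) (t : List ℕ) (w : Xs Q) :
    w ∈ bp (stc Q ζ t) ↔ ∀ i < t.length, w (ζ : WithTop J) i = t.getD i 0 := by
  have h0 : (stc Q ζ t).1.st (ζ : WithTop J) = t := if_pos rfl
  constructor
  · intro h i hi
    have h1 := (h (ζ : WithTop J) (WithTop.coe_lt_top ζ)).1
    rw [h0] at h1
    exact h1 i hi
  · intro h η hη
    refine ⟨fun i hi => ?_, fun R hR => absurd hR (Finset.notMem_empty R)⟩
    by_cases he : η = (ζ : WithTop J)
    · subst he
      rw [h0] at hi ⊢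
      exact h i hi
    · have h1 : (stc Q ζ t).1.st η = [] := if_neg he
      rw [h1] at hi
      exact absurd hi (Nat.not_lt_zero i)

theorem isOpen_bp (r : Cnd Q) : IsOpen (bp r) := isOpen_generateFrom_of_mem ⟨r, rfl⟩

theorem isOpen_val (ζ : J) (n m : ℕ) : IsOpen {x : Xs Q | x (ζ : WithTop J) n = m} := by
  have h : {x : Xs Q | x (ζ : WithTop J) n = m} =
      ⋃ t : {t : List ℕ // t.length = n + 1 ∧ t.getD n 0 = m}, bp (stc Q ζ t.1) := by
    ext x
    rw [mem_iUnion]
    constructor
    · intro hx
      have hx' : x (ζ : WithTop J) n = m := hx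
      have hg : ∀ i < n + 1, ((List.range (n + 1)).map (x (ζ : WithTop J))).getD i 0 =
          x (ζ : WithTop J) i := by
        intro i hi
        rw [List.getD_eq_getElem _ _ (by simpa using hi)]
        simp
      refine ⟨⟨(List.range (n + 1)).map (x (ζ : WithTop J)), by simp, ?_⟩, ?_⟩
      · rw [hg n (Nat.lt_succ_self n)]
        exact hx'
      · rw [mem_bp_stc]
        intro i hi
        have hi' : i < n + 1 := by simpa using hi
        exact (hg i hi').symm
    · rintro ⟨⟨t, ht, htm⟩, hx⟩
      rw [mem_bp_stc] at hx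
      have h1 : n < t.length := by rw [ht]; exact Nat.lt_succ_self n
      exact (hx n h1).trans htm
  rw [h]
  exact isOpen_iUnion fun t => isOpen_bp _

theorem mf_Ch (ζ : J) : Mf (Ch (Q := Q) ζ) := by
  intro n a
  have h : {x : Xs Q | Ch ζ x n = a} =
      ⋃ m : {m : ℕ // (Nat.unpair m).1 = a}, {x : Xs Q | x (ζ : WithTop J) n = m.1} := by
    ext x
    rw [mem_iUnion]
    constructor
    · intro hx
      exact ⟨⟨x (ζ : WithTop J) n, hx⟩, rfl⟩
    · rintro ⟨⟨m, hm⟩, hx⟩
      have hx' : x (ζ : WithTop J) n = m := hx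
      show (Nat.unpair (x (ζ : WithTop J) n)).1 = a
      rw [hx', hm]
  rw [h]
  exact (isOpen_iUnion fun m : {m : ℕ // (Nat.unpair m).1 = a} =>
    isOpen_val (Q := Q) ζ n m.1).measurableSet

end Pool.Agent.Helper75.BJ.TOW

namespace Pool.Agent.Helper75.BJ

open Cardinal Ordinal Set Topology TopologicalSpace MeasureTheory
open Pool.Agent.Y575.MA (exists_bound)

/-- **TOW** -/
theorem tow (hD : S_DEC) (hC : S_COH) : S_TOW := by
  intro J _ _ Q κ hκ hκ0 co e he hco hQ hlt
  refine ⟨{
    K := κ.ord.ToType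
    card := by rw [mk_toType, card_ord]
    c := fun α => Ch (e α)
    M := fun α => {g | Mf g ∧ Dec Q {x | co x < α} g}
    meas := fun α => TOW.mf_Ch (e α)
    mM := fun α g hg => hg.1
    absorb := ?_
    generic := ?_ }⟩
  · intro Y g hY hg
    choose S hSc hS _ using fun y => hD J Q hlt (g y) (hg y)
    have hU : #(⋃ y, S y : Set J) < κ := by
      refine (mk_iUnion_le_sum_mk).trans_lt ?_
      refine ((Cardinal.sum_le_sum _ (fun _ => ℵ₀) fun y =>
        le_aleph0_iff_set_countable.2 (hSc y))).trans_lt ?_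
      rw [Cardinal.sum_const']
      exact mul_lt_of_lt hκ0.le hY hκ0
    obtain ⟨α, hα⟩ := exists_bound hκ (co '' ⋃ y, S y) (mk_image_le.trans_lt hU)
    refine ⟨α, fun y => ⟨hg y, hS y _ (fun ξ hξ η h => ?_) fun s hs => ?_⟩⟩
    · exact (hQ η ξ h).trans hξ
    · exact hα _ ⟨s, mem_iUnion.2 ⟨y, hs⟩, rfl⟩
  · intro L hL
    refine hC J Q κ.ord.ToType e (fun α => {x | co x < α}) he (fun a b hab hb => ?_) L
      fun t ht => (hL t ht).2
    have h1 : co (e b) < a := hb
    rw [hco] at h1
    exact absurd h1 (not_lt.2 hab)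

end Pool.Agent.Helper75.BJ
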