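import Pool.Agent.Helper75.BJ.ASM
import Pool.Agent.Helper75.BJ.BND
import Pool.Agent.Helper75.BJ.CCC
import Pool.Agent.Helper75.BJ.COH
import Pool.Agent.Helper75.BJ.COV
import Pool.Agent.Helper75.BJ.DEC
import Pool.Agent.Helper75.BJ.IDX
import Pool.Agent.Helper75.BJ.TOP
import Pool.Agent.Helper75.BJ.TOW
import Pool.Agent.Helper75.BJ.REAL

/-!
# The forcing extension
-/

set_option autoImplicit false
set_option linter.unusedSectionVars false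

namespace Pool.Agent.Helper75.BJ

open Cardinal MeasureTheory Set Filter Topology TopologicalSpace
open Pool.Agent.TH773.PSet Pool.Agent.R593.Rnd Pool.Agent.R592.Ent
open scoped ENNReal

theorem exists_model : ∃ (P : Type) (_ : Preorder P), Nonempty P ∧ ∀ p : P, p ∈ Model P := by
  have hal : ℵ₀ < ℵ₁ := aleph0_lt_aleph_one
  obtain ⟨κ0, r0, l0⟩ : ∃ κ : Cardinal.{0}, κ.IsRegular ∧ ℵ₁ < κ :=
    ⟨_, isRegular_succ hal.le, Order.lt_succ _⟩
  have g0 : ℵ₀ < κ0 := hal.trans l0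
  obtain ⟨κ1, r1, l1⟩ : ∃ κ : Cardinal.{0}, κ.IsRegular ∧ κ0 < κ :=
    ⟨_, isRegular_succ g0.le, Order.lt_succ _⟩
  have g1 : ℵ₀ < κ1 := g0.trans l1
  obtain ⟨κ2, r2, l2⟩ : ∃ κ : Cardinal.{0}, κ.IsRegular ∧ κ1 < κ :=
    ⟨_, isRegular_succ g1.le, Order.lt_succ _⟩
  have g2 : ℵ₀ < κ2 := g1.trans l2
  obtain ⟨κ3, r3, l3⟩ : ∃ κ : Cardinal.{0}, κ.IsRegular ∧ κ2 < κ :=
    ⟨_, isRegular_succ g2.le, Order.lt_succ _⟩
  have g3 : ℵ₀ < κ3 := g2.trans l3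
  obtain ⟨J, _, _, Q, hQ, hJ, hb, ⟨co0, e0, m0, c0, q0⟩, ⟨co1, e1, m1, c1, q1⟩,
    ⟨co2, e2, m2, c2, q2⟩, ⟨co3, e3, m3, c3, q3⟩⟩ := idx κ0 κ1 κ2 κ3 r0 r1 r2 r3 g0 l1 l2 l3
  have hD : S_DEC := dec top
  have hT : S_TOW := tow hD (coh top)
  obtain ⟨hbas, hbai, hocc, hne, -, -, -⟩ := top J Q
  have : BaireSpace (Xs Q) := hbai
  have : Nonempty (Xs Q) := ⟨fun _ _ => 0⟩
  have hI : κ3 < #((Order.succ κ3).out) := by
    rw [mk_out]
    exact Order.lt_succ _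
  have hmv : ∀ b : J, Mf (fun (x : Xs Q) n => x (b : WithTop J) n) := fun b n a =>
    (TOW.isOpen_val b n a).measurableSet
  have key := asm ccc bnd (cov ccc) (Xs Q) κ0 κ1 κ2 κ3 J (Order.succ κ3).out hocc l0 l1 l2 l3 hJ hI
    (hT J Q κ0 r0 g0 co0 e0 m0 c0 q0 hQ) (hT J Q κ1 r1 g1 co1 e1 m1 c1 q1 hQ)
    (hT J Q κ2 r2 g2 co2 e2 m2 c2 q2 hQ) (hT J Q κ3 r3 g3 co3 e3 m3 c3 q3 hQ) ?_ ?_
  · refine ⟨_, _, ?_, key⟩
    refine ⟨⟨Set.univ, MeasurableSet.univ, ?_⟩⟩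
    rw [compl_univ, mem_FF]
    intro h
    have h1 : (∅ : Set (Xs Q)) ∈ residual (Xs Q) := by
      filter_upwards [h] with x hx
      have h2 : ¬ ∀ᵐ _ : (Order.succ κ3).out × ℕ → Bool ∂(coinProduct (Order.succ κ3).out), False := by
        intro h3
        have h4 : (ae (coinProduct (Order.succ κ3).out)).NeBot := inferInstance
        exact h4.ne (Filter.eventually_false_iff_eq_bot.1 h3)
      exact h2 hx
    have h2 := dense_of_mem_residual h1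
    exact Set.empty_ne_univ (by simpa using h2.closure_eq)
  · intro Y g hY hg
    choose S hSc _ hS using fun y => hD J Q hQ (g y) (hg y)
    have hU : #(⋃ y, S y : Set J) < κ0 := by
      refine (mk_iUnion_le_sum_mk).trans_lt ?_
      refine ((Cardinal.sum_le_sum _ (fun _ => ℵ₀) fun y =>
        le_aleph0_iff_set_countable.2 (hSc y))).trans_lt ?_
      rw [Cardinal.sum_const']
      exact mul_lt_of_lt g0.le hY g0
    obtain ⟨b, hb'⟩ := hb _ hU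
    exact ⟨fun x n => x (b : WithTop J) n, hmv b, fun y =>
      hS y b fun s hs => hb' s (mem_iUnion.2 ⟨y, hs⟩)⟩
  · refine ⟨fun b x n => x (b : WithTop J) n, hmv, fun g hg => ?_⟩
    obtain ⟨S, hSc, -, hS⟩ := hD J Q hQ g hg
    obtain ⟨b, hb'⟩ := hb S ((le_aleph0_iff_set_countable.2 hSc).trans_lt g0)
    exact ⟨b, hS b hb'⟩

end Pool.Agent.Helper75.BJ
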