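import Pool.Agent.Helper75.BJ.Base

/-!
# The calculus of the sentences for the positive sets of a filter
-/

set_option autoImplicit false
set_option linter.unusedSectionVars false

namespace Pool.Agent.Helper75.BJ

open Cardinal MeasureTheory Set Filter Topology TopologicalSpace
open Pool.Agent.TH773.PSet Pool.Agent.R593.Rnd Pool.Agent.R592.Ent
open scoped ENNReal

universe u v w

section Calc

variable {Ω : Type} [MeasurableSpace Ω] (F : Filter Ω)

/-- The conditions which are included in `E`, up to the filter. -/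
def PE (E : Set Ω) : Set (Cf F) := {p | ∀ᶠ x in F, x ∈ p.1 → x ∈ E}

variable {F}

theorem mem_PE {E : Set Ω} {p : Cf F} : p ∈ PE F E ↔ ∀ᶠ x in F, x ∈ p.1 → x ∈ E := Iff.rfl

theorem le_iff_PE {p q : Cf F} : p ≤ q ↔ p ∈ PE F q.1 := Iff.rfl

theorem down_PE (E : Set Ω) : Down (PE F E) := by
  intro p hp q hq
  rw [le_iff_PE, mem_PE] at hq
  rw [mem_PE] at hp ⊢
  filter_upwards [hp, hq] with x h1 h2 h3 using h1 (h2 h3)

theorem PE_mono {E E' : Set Ω} {p : Cf F} (h : ∀ᶠ x in F, x ∈ p.1 → x ∈ E → x ∈ E')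
    (hp : p ∈ PE F E) : p ∈ PE F E' := by
  rw [mem_PE] at hp ⊢
  filter_upwards [h, hp] with x h1 h2 h3 using h1 h3 (h2 h3)

/-- The condition `p ∩ E`. -/
def rst (p : Cf F) (E : Set Ω) (hE : MeasurableSet E) (h : (p.1 ∩ E)ᶜ ∉ F) : Cf F :=
  ⟨p.1 ∩ E, p.2.1.inter hE, h⟩

theorem rst_le (p : Cf F) (E : Set Ω) (hE : MeasurableSet E) (h : (p.1 ∩ E)ᶜ ∉ F) :
    rst p E hE h ≤ p := Eventually.of_forall fun _ hx => hx.1

theorem rst_mem (p : Cf F) (E : Set Ω) (hE : MeasurableSet E) (h : (p.1 ∩ E)ᶜ ∉ F) :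
    rst p E hE h ∈ PE F E := Eventually.of_forall fun _ hx => hx.2

/-- a property which holds outside the condition only is impossible -/
theorem pos_of {p : Cf F} {φ : Ω → Prop} (h : ∀ᶠ x in F, x ∈ p.1 → φ x) (h' : ∀ᶠ x in F, x ∈ p.1 → ¬ φ x) :
    False := by
  refine p.2.2 ?_
  filter_upwards [h, h'] with x h1 h2 h3 using h2 h3 (h1 h3)

theorem not_PE_compl {p : Cf F} {E : Set Ω} (h : p ∈ PE F E) (h' : p ∈ PE F Eᶜ) : False :=
  pos_of h h'

/-- a condition which is not included in `E` has an extension outside `E` -/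
theorem exists_of_not_PE {p : Cf F} {E : Set Ω} (hE : MeasurableSet E) (h : p ∉ PE F E) :
    ∃ q ≤ p, q ∈ PE F Eᶜ := by
  have h1 : (p.1 ∩ Eᶜ)ᶜ ∉ F := by
    intro h1
    apply h
    rw [mem_PE]
    filter_upwards [h1] with x hx hxp
    by_contra hxE
    exact hx ⟨hxp, hxE⟩
  exact ⟨rst p Eᶜ hE.compl h1, rst_le _ _ _ _, rst_mem _ _ _ _⟩

theorem reg_PE {E : Set Ω} (hE : MeasurableSet E) : Reg (PE F E) := by
  refine ⟨down_PE E, fun p hp => ?_⟩
  by_contra h
  obtain ⟨q, hq, hq'⟩ := exists_of_not_PE hE h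
  obtain ⟨r, hr, hr'⟩ := hp q hq
  exact not_PE_compl hr' (down_PE _ _ hq' _ hr)

theorem fnot_PE {E : Set Ω} (hE : MeasurableSet E) : fnot (PE F E) = PE F Eᶜ := by
  ext p
  constructor
  · intro h
    by_contra hne
    obtain ⟨q, hq, hq'⟩ := exists_of_not_PE hE.compl hne
    rw [compl_compl] at hq'
    exact h q hq hq'
  · intro h q hq hq'
    exact not_PE_compl hq' (down_PE _ _ h _ hq)

theorem fand_PE (E E' : Set Ω) : fand (PE F E) (PE F E') = PE F (E ∩ E') := by
  ext p
  simp only [mem_fand, mem_PE]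
  constructor
  · rintro ⟨h1, h2⟩
    filter_upwards [h1, h2] with x h3 h4 h5 using ⟨h3 h5, h4 h5⟩
  · intro h
    exact ⟨h.mono fun x h1 h2 => (h1 h2).1, h.mono fun x h1 h2 => (h1 h2).2⟩

variable [CountableInterFilter F]

theorem fall_PE {ι : Sort v} [Countable ι] (E : ι → Set Ω) :
    fall (fun i => PE F (E i)) = PE F (⋂ i, E i) := by
  ext p
  simp only [mem_fall, mem_PE, mem_iInter]
  constructor
  · intro h
    filter_upwards [eventually_countable_forall.2 h] with x h1 h2 i using h1 i h2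
  · intro h i
    exact h.mono fun x h1 h2 => h1 h2 i

theorem fex_PE {ι : Sort v} [Countable ι] {E : ι → Set Ω} (hE : ∀ i, MeasurableSet (E i)) :
    fex (fun i => PE F (E i)) = PE F (⋃ i, E i) := by
  unfold fex
  have : (fun i => fnot (PE F (E i))) = fun i => PE F (E i)ᶜ := by
    ext1 i; exact fnot_PE (hE i)
  rw [this, fall_PE, fnot_PE (MeasurableSet.iInter fun i => (hE i).compl), compl_iInter]
  simp

theorem fimp_PE {E E' : Set Ω} (hE : MeasurableSet E) (hE' : MeasurableSet E') :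
    fimp (PE F E) (PE F E') = PE F (Eᶜ ∪ E') := by
  unfold fimp
  rw [fnot_PE hE', fand_PE, fnot_PE (hE.inter hE'.compl), compl_inter, compl_compl]

theorem disj_PE {E E' : Set Ω} (hE : MeasurableSet E) (hE' : MeasurableSet E') :
    disj (PE F E) (PE F E') = PE F (E ∪ E') := by
  unfold disj
  rw [fnot_PE hE', fnot_PE hE, fand_PE, fnot_PE (hE.compl.inter hE'.compl), compl_inter,
    compl_compl, compl_compl]

theorem meets_PE {E : Set Ω} (hE : MeasurableSet E) : meets (PE F E) = PE F E := by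
  ext p
  constructor
  · intro h
    by_contra hne
    obtain ⟨q, hq, hq'⟩ := exists_of_not_PE hE hne
    obtain ⟨r, hr, s, hs, hrs⟩ := h q hq
    exact not_PE_compl (down_PE _ _ hs _ hrs) (down_PE _ _ hq' _ hr)
  · intro h q hq
    exact ⟨q, le_rfl, q, down_PE _ _ h _ hq, le_rfl⟩

/-- If a condition is covered by countably many measurable sets, it has an extension in one of them. -/
theorem pigeon {ι : Type} [Countable ι] {p : Cf F} {S : ι → Set Ω} (hS : ∀ i, MeasurableSet (S i))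
    (h : ∀ᶠ x in F, x ∈ p.1 → ∃ i, x ∈ S i) : ∃ q ≤ p, ∃ i, q ∈ PE F (S i) := by
  have h1 : p ∈ fex fun i => PE F (S i) := by
    rw [fex_PE hS]
    filter_upwards [h] with x hx hxp
    exact mem_iUnion.2 (hx hxp)
  obtain ⟨q, hq, i, hi⟩ := mem_fex.1 h1 p le_rfl
  exact ⟨q, hq, i, hi⟩

/-! ### The chain condition -/

theorem ccc_Cf (hc : Ccc F) {ι : Type} (f : ι → Cf F) (hι : ¬ Countable ι) :
    ∃ i j, i ≠ j ∧ ∃ s, s ≤ f i ∧ s ≤ f j := by
  by_contra hcon
  push Not at hcon
  apply hι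
  refine hc ι (fun i => (f i).1) (fun i => (f i).2.1) (fun i => (f i).2.2) fun i j hij => ?_
  by_contra h
  exact hcon i j hij (rst (f i) (f j).1 (f j).2.1 h) (rst_le _ _ _ _) (rst_mem _ _ _ _)

theorem ccc_same' (hc : Ccc F) {X Z : Type} (h : #Z * ℵ₀ < #X) (f : X → Cf F)
    (z : X → Z) : ∃ x x', x ≠ x' ∧ z x = z x' ∧ ∃ s, s ≤ f x ∧ s ≤ f x' := by
  have h1 : ∃ c, ¬ Countable {x // z x = c} := by
    by_contra hcon
    push Not at hcon
    have h2 : #X = Cardinal.sum fun c => #{x // z x = c} := by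
      rw [← mk_sigma]
      exact (Equiv.sigmaFiberEquiv z).symm.cardinal_eq
    have h3 : #X ≤ #Z * ℵ₀ := by
      rw [h2]
      refine (Cardinal.sum_le_sum _ (fun _ => ℵ₀) fun c => ?_).trans ?_
      · have := hcon c
        exact mk_le_aleph0
      · rw [Cardinal.sum_const']
    exact absurd h3 (not_le.2 h)
  obtain ⟨c, hc'⟩ := h1
  obtain ⟨y, y', hne, hcomp⟩ := ccc_Cf hc (fun x : {x // z x = c} => f x.1) hc'
  exact ⟨y.1, y'.1, fun h => hne (Subtype.ext h), y.2.trans y'.2.symm, hcomp⟩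

/-- an uncountable set of the ground model stays uncountable -/
theorem unctb (hc : Ccc F) {Y : Type} (hY : ¬ Countable Y) (p : Cf F) : p ∈ Unctb (Cf F) Y := by
  have hne : Nonempty Y := by
    by_contra h
    rw [not_nonempty_iff] at h
    exact hY inferInstance
  refine ⟨mem_fex_of hne.some fun _ _ => trivial, ?_⟩
  intro q _ hq
  obtain ⟨r, _, R, hR1, hR2⟩ := mem_fex.1 hq q le_rfl
  have h1 : ∀ y : Y, ∃ s ≤ r, ∃ x : ℕ, s ∈ meets (R x y) := fun y =>
    mem_fex.1 (hR2 y) r le_rfl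
  choose f hf x hx using h1
  obtain ⟨y, y', hne, hz, s, hs1, hs2⟩ := ccc_same' hc (X := Y) (Z := ℕ) (by
    rw [mk_nat, aleph0_mul_aleph0]
    exact not_le.1 fun h => hY (mk_le_aleph0_iff.1 h)) f x
  apply hne
  refine isFun_unique ((reg_isFun R).1 r hR1 s (hs1.trans (hf y)))
    ((reg_meets _).1 _ (hx y) s hs1) ?_
  rw [hz]
  exact (reg_meets _).1 _ (hx y') s hs2

/-- Every sentence `meets N` is represented by a measurable set. -/
theorem exists_PE (hc : Ccc F) (N : Set (Cf F)) : ∃ E : Set Ω, MeasurableSet E ∧ meets N = PE F E := by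
  classical
  let 𝒮 : Set (Set (Cf F)) := {T | (∀ t ∈ T, ∃ s ∈ N, t ≤ s) ∧
    ∀ t ∈ T, ∀ t' ∈ T, t ≠ t' → ¬ ∃ s, s ≤ t ∧ s ≤ t'}
  obtain ⟨T, hT⟩ : ∃ T, Maximal (fun T => T ∈ 𝒮) T := by
    refine zorn_subset 𝒮 fun c hc' hchain => ⟨⋃₀ c, ⟨?_, ?_⟩, fun s hs => subset_sUnion_of_mem hs⟩
    · rintro t ⟨s, hs, hts⟩
      exact (hc' hs).1 t hts
    · rintro t ⟨s, hs, hts⟩ t' ⟨s', hs', hts'⟩ hne
      rcases hchain.total hs hs' with h | h
      · exact (hc' hs').2 t (h hts) t' hts' hne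
      · exact (hc' hs).2 t hts t' (h hts') hne
  have hTc : Countable T := by
    by_contra hcon
    obtain ⟨x, x', hne, s, hs, hs'⟩ := ccc_Cf hc (fun t : T => t.1) hcon
    exact hT.prop.2 x.1 x.2 x'.1 x'.2 (fun h => hne (Subtype.ext h)) ⟨s, hs, hs'⟩
  have hEm : MeasurableSet (⋃ t : T, t.1.1) := MeasurableSet.iUnion fun t => t.1.2.1
  refine ⟨⋃ t : T, t.1.1, hEm, ?_⟩
  ext p
  constructor
  · intro h
    by_contra hne
    obtain ⟨q, hq, hq'⟩ := exists_of_not_PE hEm hne
    obtain ⟨r, hr, s, hs, hrs⟩ := h q hq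
    have hrE : r ∈ PE F (⋃ t : T, t.1.1)ᶜ := down_PE _ _ hq' _ hr
    have hdis : ∀ t ∈ T, ¬ ∃ s', s' ≤ r ∧ s' ≤ t := by
      rintro t ht ⟨s', h1, h2⟩
      refine not_PE_compl (E := ⋃ t : T, t.1.1) (p := s') ?_ (down_PE _ _ hrE _ h1)
      rw [mem_PE]
      have h3 : ∀ᶠ x in F, x ∈ s'.1 → x ∈ t.1 := h2
      filter_upwards [h3] with x hx hxs
      exact mem_iUnion.2 ⟨⟨t, ht⟩, hx hxs⟩
    have hin : insert r T ∈ 𝒮 := by
      constructor
      · rintro t (rfl | ht)
        · exact ⟨s, hs, hrs⟩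
        · exact hT.prop.1 t ht
      · rintro t (rfl | ht) t' (rfl | ht') hne'
        · exact absurd rfl hne'
        · exact hdis t' ht'
        · rintro ⟨s', h1, h2⟩
          exact hdis t ht ⟨s', h2, h1⟩
        · exact hT.prop.2 t ht t' ht' hne'
    have hrT : r ∈ T := hT.le_of_ge hin (subset_insert _ _) (mem_insert _ _)
    exact hdis r hrT ⟨r, le_rfl, le_rfl⟩
  · intro h q hq
    have h1 : ∀ᶠ x in F, x ∈ q.1 → ∃ t : T, x ∈ t.1.1 := by
      filter_upwards [down_PE _ _ h _ hq] with x hx hxq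
      exact mem_iUnion.1 (hx hxq)
    obtain ⟨r, hr, t, ht⟩ := pigeon (fun t : T => t.1.2.1) h1
    obtain ⟨s, hs, hts⟩ := hT.prop.1 t.1 t.2
    exact ⟨r, hr, s, hs, le_trans (show r ≤ t.1 from ht) hts⟩

/-! ### Names of functions -/

/-- `h` represents the name `x` on all conditions which force that `x` is a function -/
def Rp (x : ℕ → ℕ → Set (Cf F)) (h : Ω → ℕ → ℕ) : Prop :=
  Mf h ∧ ∀ p ∈ IsFun x, ∀ n a, (p ∈ meets (x n a) ↔ p ∈ PE F {ω | h ω n = a})

variable (F) in
/-- the name of a measurable function -/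
def nm (h : Ω → ℕ → ℕ) : ℕ → ℕ → Set (Cf F) := fun n a => PE F {ω | h ω n = a}

theorem isFun_nm {h : Ω → ℕ → ℕ} (hh : Mf h) (p : Cf F) : p ∈ IsFun (nm F h) := by
  refine ⟨fun n => ?_, fun n a b hne q hq hq' => ?_⟩
  · have h1 : fex (fun a => meets (nm F h n a)) = PE F (⋃ a, {ω | h ω n = a}) := by
      have : (fun a => meets (nm F h n a)) = fun a => PE F {ω | h ω n = a} := by
        funext a
        exact meets_PE (hh n a)
      rw [this]
      exact fex_PE fun a => hh n a
    show p ∈ fex fun a => meets (nm F h n a)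
    rw [h1]
    exact Eventually.of_forall fun x _ => mem_iUnion.2 ⟨h x n, rfl⟩
  · have h1 : q ∈ PE F {ω | h ω n = a} := by
      rw [← meets_PE (hh n a)]
      exact hq'.1
    have h2 : q ∈ PE F {ω | h ω n = b} := by
      rw [← meets_PE (hh n b)]
      exact hq'.2
    refine pos_of (φ := fun x => h x n = a) h1 ?_
    filter_upwards [h2] with x hx hxq hxa
    exact hne (hxa.symm.trans (hx hxq))

theorem rp_nm {h : Ω → ℕ → ℕ} (hh : Mf h) : Rp (nm F h) h :=
  ⟨hh, fun p _ n a => by rw [show meets (nm F h n a) = PE F {ω | h ω n = a} from meets_PE (hh n a)]⟩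

theorem exists_Rp (hc : Ccc F) (x : ℕ → ℕ → Set (Cf F)) : ∃ h, Rp x h := by
  classical
  choose X hX hX' using fun n a => exists_PE hc (x n a)
  let h : Ω → ℕ → ℕ := fun ω n => if hex : ∃ a, ω ∈ X n a then Nat.find hex else 0
  have hm : ∀ n a, MeasurableSet {ω | h ω n = a} := by
    intro n a
    have h1 : {ω | h ω n = a} = (X n a ∩ ⋂ b : ℕ, ⋂ _ : b < a, (X n b)ᶜ) ∪
        (if a = 0 then ⋂ b : ℕ, (X n b)ᶜ else ∅) := by
      ext ω
      simp only [mem_ofPred_eq, mem_union, mem_inter_iff, mem_iInter, mem_compl_iff, h]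
      by_cases hex : ∃ a, ω ∈ X n a
      · rw [dif_pos hex, Nat.find_eq_iff]
        constructor
        · intro h2
          exact Or.inl h2
        · rintro (h2 | h2)
          · exact h2
          · exfalso
            split_ifs at h2
            · obtain ⟨b, hb⟩ := hex
              exact (mem_iInter.1 h2 b) hb
            · exact h2
      · rw [dif_neg hex]
        push Not at hex
        constructor
        · rintro rfl
          right
          rw [if_pos rfl]
          exact mem_iInter.2 hex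
        · rintro (h2 | h2)
          · exact absurd h2.1 (hex a)
          · split_ifs at h2 with h3
            · exact h3.symm
            · exact h2.elim
    rw [h1]
    refine ((hX n a).inter (MeasurableSet.iInter fun b => MeasurableSet.iInter fun _ =>
      (hX n b).compl)).union ?_
    split_ifs
    · exact MeasurableSet.iInter fun b => (hX n b).compl
    · exact MeasurableSet.empty
  refine ⟨h, hm, fun p hp n a => ?_⟩
  have h1 : ∀ᶠ ω in F, ω ∈ p.1 → ∃ b, ω ∈ X n b := by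
    have h2 : p ∈ fex fun b => meets (x n b) := hp.1 n
    simp only [hX'] at h2
    rw [fex_PE fun b => hX n b] at h2
    filter_upwards [h2] with ω hω hωp
    exact mem_iUnion.1 (hω hωp)
  have h2 : ∀ b c, b ≠ c → ∀ᶠ ω in F, ω ∈ p.1 → ¬ (ω ∈ X n b ∧ ω ∈ X n c) := by
    intro b c hbc
    have h3 : p ∈ fnot (fand (meets (x n b)) (meets (x n c))) := hp.2 n b c hbc
    rw [hX', hX', fand_PE, fnot_PE ((hX n b).inter (hX n c))] at h3
    exact h3
  have h3 : ∀ᶠ ω in F, ∀ b c, b ≠ c → ω ∈ p.1 → ¬ (ω ∈ X n b ∧ ω ∈ X n c) :=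
    eventually_countable_forall.2 fun b => eventually_countable_forall.2 fun c => by
      by_cases hbc : b = c
      · exact Eventually.of_forall fun _ h => absurd hbc h
      · exact (h2 b c hbc).mono fun _ h _ => h
  have h4 : ∀ᶠ ω in F, ω ∈ p.1 → (ω ∈ X n a ↔ h ω n = a) := by
    filter_upwards [h1, h3] with ω hω hω' hωp
    have hex := hω hωp
    have h5 : h ω n = Nat.find hex := dif_pos hex
    have h6 := Nat.find_spec hex
    constructor
    · intro h7
      rw [h5]
      by_contra hne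
      exact hω' _ _ hne hωp ⟨h6, h7⟩
    · rintro rfl
      rw [h5]
      exact h6
  rw [hX', mem_PE, mem_PE]
  constructor
  · intro h5
    filter_upwards [h4, h5] with ω h6 h7 h8 using (h6 h8).1 (h7 h8)
  · intro h5
    filter_upwards [h4, h5] with ω h6 h7 h8 using (h6 h8).2 (h7 h8)

theorem measurable_lt {h k : Ω → ℕ → ℕ} (hh : Mf h) (hk : Mf k) (n : ℕ) :
    MeasurableSet {ω | k ω n < h ω n} := by
  have : {ω | k ω n < h ω n} = ⋃ a : ℕ, ⋃ b : ℕ, ⋃ _ : b < a, {ω | h ω n = a} ∩ {ω | k ω n = b} := by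
    ext ω
    simp only [mem_ofPred_eq, mem_iUnion, mem_inter_iff, exists_prop]
    constructor
    · intro h'
      exact ⟨_, _, h', rfl, rfl⟩
    · rintro ⟨a, b, h', rfl, rfl⟩
      exact h'
  rw [this]
  exact MeasurableSet.iUnion fun a => MeasurableSet.iUnion fun b => MeasurableSet.iUnion fun _ =>
    (hh n a).inter (hk n b)

theorem measurable_le {h k : Ω → ℕ → ℕ} (hh : Mf h) (hk : Mf k) (n : ℕ) :
    MeasurableSet {ω | h ω n ≤ k ω n} := by
  have : {ω | h ω n ≤ k ω n} = {ω | k ω n < h ω n}ᶜ := by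
    ext ω
    simp
  rw [this]
  exact (measurable_lt hh hk n).compl

/-- `f ≤* g` -/
theorem evLe_iff {x y : ℕ → ℕ → Set (Cf F)} {h k : Ω → ℕ → ℕ} (hx : Rp x h) (hy : Rp y k) {p : Cf F}
    (hpx : p ∈ IsFun x) (hpy : p ∈ IsFun y) :
    p ∈ EvLe x y ↔ ∀ᶠ ω in F, ω ∈ p.1 → ∀ᶠ n in atTop, h ω n ≤ k ω n := by
  constructor
  · intro hp
    have h1 : p ∈ fex fun N : ℕ => PE F {ω | ∀ n, N ≤ n → h ω n ≤ k ω n} := by
      refine mem_fex.2 fun q hq => ?_
      obtain ⟨r, hr, N, hN⟩ := mem_fex.1 hp q hq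
      refine ⟨r, hr, N, ?_⟩
      have h2 : ∀ n, ∀ᶠ ω in F, N ≤ n → ω ∈ r.1 → h ω n ≤ k ω n := by
        intro n
        by_cases hn : N ≤ n
        · have h3 : ∀ a b, b < a → ∀ᶠ ω in F, ω ∈ r.1 → ¬ (h ω n = a ∧ k ω n = b) := by
            intro a b hba
            by_contra hcon
            have h4 : r ∉ PE F ({ω | h ω n = a} ∩ {ω | k ω n = b})ᶜ := hcon
            obtain ⟨s, hs, hs'⟩ := exists_of_not_PE ((hx.1 n a).inter (hy.1 n b)).compl h4
            rw [compl_compl, ← fand_PE] at hs'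
            have hsp : s ≤ p := hs.trans (hr.trans hq)
            exact hN n hn a b hba s hs
              ⟨(hx.2 s ((reg_isFun x).1 p hpx s hsp) n a).2 hs'.1,
                (hy.2 s ((reg_isFun y).1 p hpy s hsp) n b).2 hs'.2⟩
          have h4 : ∀ᶠ ω in F, ∀ a b, b < a → ω ∈ r.1 → ¬ (h ω n = a ∧ k ω n = b) :=
            eventually_countable_forall.2 fun a => eventually_countable_forall.2 fun b => by
              by_cases hba : b < a
              · exact (h3 a b hba).mono fun _ h _ => h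
              · exact Eventually.of_forall fun _ h => absurd h hba
          filter_upwards [h4] with ω hω _ hωr
          by_contra hcon
          exact hω _ _ (not_le.1 hcon) hωr ⟨rfl, rfl⟩
        · exact Eventually.of_forall fun _ h => absurd h hn
      filter_upwards [eventually_countable_forall.2 h2] with ω hω hωr n hn
      exact hω n hn hωr
    rw [fex_PE] at h1
    · filter_upwards [h1] with ω hω hωp
      obtain ⟨N, hN⟩ := mem_iUnion.1 (hω hωp)
      exact eventually_atTop.2 ⟨N, hN⟩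
    · intro N
      have : {ω | ∀ n, N ≤ n → h ω n ≤ k ω n} = ⋂ n : ℕ, ⋂ _ : N ≤ n, {ω | h ω n ≤ k ω n} := by
        ext ω
        simp
      rw [this]
      exact MeasurableSet.iInter fun n => MeasurableSet.iInter fun _ => measurable_le hx.1 hy.1 n
  · intro hp
    refine mem_fex.2 fun q hq => ?_
    have h1 : ∀ᶠ ω in F, ω ∈ q.1 → ∃ N : ℕ, ω ∈ {ω | ∀ n, N ≤ n → h ω n ≤ k ω n} := by
      have h2 : ∀ᶠ ω in F, ω ∈ q.1 → ω ∈ p.1 := hq
      filter_upwards [hp, h2] with ω hω hω' hωq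
      exact eventually_atTop.1 (hω (hω' hωq))
    obtain ⟨r, hr, N, hN⟩ := pigeon (fun N => by
      have : {ω | ∀ n, N ≤ n → h ω n ≤ k ω n} = ⋂ n : ℕ, ⋂ _ : N ≤ n, {ω | h ω n ≤ k ω n} := by
        ext ω
        simp
      rw [this]
      exact MeasurableSet.iInter fun n => MeasurableSet.iInter fun _ => measurable_le hx.1 hy.1 n) h1
    refine ⟨r, hr, N, fun n hn a b hba s hs hs' => ?_⟩
    have hsp : s ≤ p := hs.trans (hr.trans hq)
    have h3 := (hx.2 s ((reg_isFun x).1 p hpx s hsp) n a).1 hs'.1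
    have h4 := (hy.2 s ((reg_isFun y).1 p hpy s hsp) n b).1 hs'.2
    have h5 := down_PE _ _ hN _ hs
    refine pos_of (φ := fun ω => h ω n = a) h3 ?_
    filter_upwards [h4, h5] with ω h6 h7 h8 h9
    have h10 : h ω n ≤ k ω n := h7 h8 n hn
    have h11 : k ω n = b := h6 h8
    rw [h9, h11] at h10
    omega

/-- `f ≤_J g` by one member of the base -/
theorem leJ_aux {x y : ℕ → ℕ → Set (Cf F)} {h k : Ω → ℕ → ℕ} (hx : Rp x h) (hy : Rp y k) {p : Cf F}
    (hpx : p ∈ IsFun x) (hpy : p ∈ IsFun y) {G : ℕ → Set Ω} (hG : ∀ n, MeasurableSet (G n)) :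
    (p ∈ fall fun n : ℕ => fall fun a : ℕ => fall fun b : ℕ => fall fun _ : b < a =>
      fimp (fand (meets (x n a)) (meets (y n b))) (meets (PE F (G n)))) ↔
    ∀ᶠ ω in F, ω ∈ p.1 → ∀ n, k ω n < h ω n → ω ∈ G n := by
  have key : ∀ n a b, (p ∈ fimp (fand (meets (x n a)) (meets (y n b))) (meets (PE F (G n))) ↔
      ∀ᶠ ω in F, ω ∈ p.1 → h ω n = a → k ω n = b → ω ∈ G n) := by
    intro n a b
    have h1 : p ∈ fimp (fand (meets (x n a)) (meets (y n b))) (meets (PE F (G n))) ↔
        p ∈ fimp (fand (PE F {ω | h ω n = a}) (PE F {ω | k ω n = b})) (PE F (G n)) := by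
      rw [meets_PE (hG n), mem_fimp, mem_fimp]
      refine forall_congr' fun q => forall_congr' fun hq => ?_
      have h2 : q ∈ fand (meets (x n a)) (meets (y n b)) ↔
          q ∈ fand (PE F {ω | h ω n = a}) (PE F {ω | k ω n = b}) := by
        rw [mem_fand, mem_fand, hx.2 q ((reg_isFun x).1 p hpx q hq) n a,
          hy.2 q ((reg_isFun y).1 p hpy q hq) n b]
      rw [h2]
    rw [h1, fand_PE, fimp_PE ((hx.1 n a).inter (hy.1 n b)) (hG n), mem_PE]
    refine eventually_congr (Eventually.of_forall fun ω => ?_)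
    simp only [mem_union, mem_compl_iff, mem_inter_iff, mem_ofPred_eq]
    tauto
  simp only [mem_fall, key]
  constructor
  · intro h1
    have h2 : ∀ᶠ ω in F, ∀ n a b : ℕ, b < a → ω ∈ p.1 → h ω n = a → k ω n = b → ω ∈ G n :=
      eventually_countable_forall.2 fun n => eventually_countable_forall.2 fun a =>
        eventually_countable_forall.2 fun b => by
          by_cases hba : b < a
          · exact (h1 n a b hba).mono fun _ h _ => h
          · exact Eventually.of_forall fun _ h => absurd h hba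
    filter_upwards [h2] with ω hω hωp n hn
    exact hω n _ _ hn hωp rfl rfl
  · intro h1 n a b hba
    filter_upwards [h1] with ω hω hωp ha hb
    exact hω hωp n (by rw [ha, hb]; exact hba)

end Calc

end Pool.Agent.Helper75.BJ
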